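import Mathlib

/-! The adjugate of a symmetric matrix of forms which kills the vector of variables. -/

open Matrix MvPolynomial

namespace Pool.Agent.Helper45.MK

/-- Cramer's rule for a vector in the kernel -/
lemma cramer_ker {R n : Type*} [CommRing R] [Fintype n] [DecidableEq n] (A : Matrix n n R)
    (v : n → R) (hv : A *ᵥ v = 0) (b : n → R) (i k : n) :
    v k * cramer A b i = v i * cramer A b k := by
  by_cases hik : i = k
  · rw [hik]
  rw [cramer_apply, cramer_apply]
  set M := A.updateCol i b with hM
  have h1 := Matrix.det_updateCol_sum M k (Function.update v i 0)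
  rw [Function.update_of_ne (Ne.symm hik), smul_eq_mul] at h1
  have h2 : (fun r => ∑ j, Function.update v i 0 j • M r j) = (-v i) • fun r => A r i := by
    funext r
    have h3 : ∑ j, A r j * v j = 0 := congrFun hv r
    rw [← Finset.add_sum_erase _ _ (Finset.mem_univ i)] at h3 ⊢
    rw [Function.update_self, zero_smul, zero_add, Pi.smul_apply, smul_eq_mul]
    have h4 : ∑ j ∈ Finset.univ.erase i, Function.update v i 0 j • M r j =
        ∑ j ∈ Finset.univ.erase i, A r j * v j := by
      refine Finset.sum_congr rfl fun j hj => ?_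
      have hj' : j ≠ i := Finset.ne_of_mem_erase hj
      rw [Function.update_of_ne hj', hM, Matrix.updateCol_ne hj', smul_eq_mul, mul_comm]
    rw [h4]
    linear_combination h3
  rw [h2, Matrix.det_updateCol_smul] at h1
  have h5 : M.updateCol k (fun r => A r i) = (A.updateCol k b).submatrix id (Equiv.swap i k) := by
    ext r j
    rw [Matrix.submatrix_apply, id]
    by_cases hjk : j = k
    · subst hjk
      rw [Matrix.updateCol_self, Equiv.swap_apply_right, Matrix.updateCol_ne hik]
    · rw [Matrix.updateCol_ne hjk, hM]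
      by_cases hji : j = i
      · subst hji
        rw [Matrix.updateCol_self, Equiv.swap_apply_left, Matrix.updateCol_self]
      · rw [Matrix.updateCol_ne hji, Equiv.swap_apply_of_ne_of_ne hji hjk, Matrix.updateCol_ne hjk]
  rw [h5, Matrix.det_permute', Equiv.Perm.sign_swap hik] at h1
  rw [← h1]
  simp

variable {K : Type*} [Field K]

lemma exists_factor {n : ℕ} (hn : 2 ≤ n) (p : Fin n → MvPolynomial (Fin n) K)
    (h : ∀ i k, X k * p i = X i * p k) : ∃ q, ∀ i, p i = X i * q := by
  let i0 : Fin n := ⟨0, by omega⟩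
  let i1 : Fin n := ⟨1, by omega⟩
  have h1 : (X i0 : MvPolynomial (Fin n) K) ∣ X i1 * p i0 := ⟨p i1, (h i0 i1)⟩
  rw [X_dvd_mul_iff] at h1
  have h2 : ¬ ((X i0 : MvPolynomial (Fin n) K) ∣ X i1) := by
    rw [X_dvd_X]
    intro h3
    have := congrArg Fin.val h3
    simp [i0, i1] at this
  obtain ⟨q, hq⟩ := h1.resolve_left h2
  refine ⟨q, fun i => ?_⟩
  have h3 := h i i0
  rw [hq] at h3
  refine mul_left_cancel₀ (X_ne_zero i0) ?_
  rw [h3]
  ring

/-- the adjugate is a multiple of the matrix of products of the variables -/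
theorem exists_delta {n : ℕ} (hn : 2 ≤ n) (G : Matrix (Fin n) (Fin n) (MvPolynomial (Fin n) K))
    (hG : Gᵀ = G) (hX : G *ᵥ (fun i => X i) = 0) :
    ∃ δ, ∀ i j, adjugate G i j = X i * (X j * δ) := by
  have h1 : ∀ i j, adjugate G i j = cramer G (Pi.single i 1) j := by
    intro i j
    rw [adjugate_def, hG]
    rfl
  have h2 : ∀ i j, adjugate G i j = adjugate G j i := by
    intro i j
    have := congrFun (congrFun (adjugate_transpose G) i) j
    rw [hG, Matrix.transpose_apply] at this
    exact this.symm
  have h3 : ∀ i j k, X k * adjugate G i j = X j * adjugate G i k := by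
    intro i j k
    rw [h1, h1]
    exact cramer_ker G _ hX _ j k
  have h4 : ∀ i, ∃ q, ∀ j, adjugate G i j = X j * q := fun i =>
    exists_factor hn (fun j => adjugate G i j) (fun j k => h3 i j k)
  choose β hβ using h4
  obtain ⟨δ, hδ⟩ := exists_factor hn β (fun i k => by
    rw [← hβ i k, ← hβ k i, h2])
  refine ⟨δ, fun i j => ?_⟩
  rw [hβ, hδ]
  ring

lemma homog_of_mul_X {n : ℕ} {δ : MvPolynomial (Fin n) K} {i : Fin n} {d : ℕ}
    (h : (X i * (X i * δ)).IsHomogeneous (d + 2)) : δ.IsHomogeneous d := by
  intro m hm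
  have h1 : coeff (m + Finsupp.single i 1 + Finsupp.single i 1) (X i * (X i * δ)) ≠ 0 := by
    rw [mul_comm (X i) (X i * δ), coeff_mul_X, mul_comm (X i) δ, coeff_mul_X]
    exact hm
  have h2 := h h1
  rw [map_add, map_add] at h2
  have h3 : Finsupp.weight (1 : Fin n → ℕ) (Finsupp.single i 1) = 1 := by
    rw [Finsupp.weight_single]
    rfl
  rw [h3] at h2
  omega

end Pool.Agent.Helper45.MK
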