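import Pool.Agent.Helper45.SC1.Closed

/-! Isotropic vectors in the orthogonal complement of a family of vectors whose Gram determinant
satisfies a square condition. -/

open Matrix MvPolynomial

namespace Pool.Agent.Helper45.MK

open Pool.Agent.Helper45.SC1 (IsC1)

variable {K : Type*} [Field K]

/-- a ternary quadratic form over a `C1` field is isotropic -/
lemma ternary (hC : IsC1 K) {ι : Type*} [Fintype ι] (G : Matrix ι ι K) (b : Fin 3 → ι → K) :
    ∃ x : Fin 3 → K, x ≠ 0 ∧ (∑ i, x i • b i) ⬝ᵥ (G *ᵥ (∑ i, x i • b i)) = 0 := by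
  let M : Fin 3 → Fin 3 → K := fun i j => b i ⬝ᵥ (G *ᵥ b j)
  let f : MvPolynomial (Fin 3) K := ∑ i, ∑ j, C (M i j) * (X i * X j)
  have hf : f.IsHomogeneous 2 := by
    apply IsHomogeneous.sum
    intro i _
    apply IsHomogeneous.sum
    intro j _
    have h1 : (X i * X j : MvPolynomial (Fin 3) K).IsHomogeneous 2 :=
      (isHomogeneous_X K i).mul (isHomogeneous_X K j)
    simpa using (isHomogeneous_C (Fin 3) (M i j)).mul h1
  obtain ⟨x, hx0, hx⟩ := hC 3 2 f hf (by norm_num) (by norm_num)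
  refine ⟨x, hx0, ?_⟩
  rw [← hx]
  simp only [f, M, Fin.sum_univ_three, map_add, map_mul, eval_C, eval_X, add_dotProduct, mulVec_add,
    dotProduct_add, smul_dotProduct, mulVec_smul, dotProduct_smul, smul_eq_mul]
  ring

/-- a binary symmetric form with minus discriminant a square is isotropic -/
lemma binary {ι : Type*} [Fintype ι] (G : Matrix ι ι K) (b : Fin 2 → ι → K)
    (hs : b 0 ⬝ᵥ (G *ᵥ b 1) = b 1 ⬝ᵥ (G *ᵥ b 0)) (r : K)
    (hr : -((b 0 ⬝ᵥ (G *ᵥ b 0)) * (b 1 ⬝ᵥ (G *ᵥ b 1))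
      - (b 0 ⬝ᵥ (G *ᵥ b 1)) * (b 1 ⬝ᵥ (G *ᵥ b 0))) = r ^ 2) :
    ∃ x : Fin 2 → K, x ≠ 0 ∧ (∑ i, x i • b i) ⬝ᵥ (G *ᵥ (∑ i, x i • b i)) = 0 := by
  have hexp : ∀ x : Fin 2 → K, (∑ i, x i • b i) ⬝ᵥ (G *ᵥ (∑ i, x i • b i)) =
      x 0 ^ 2 * (b 0 ⬝ᵥ (G *ᵥ b 0)) + x 0 * x 1 * (b 0 ⬝ᵥ (G *ᵥ b 1) + b 1 ⬝ᵥ (G *ᵥ b 0))
        + x 1 ^ 2 * (b 1 ⬝ᵥ (G *ᵥ b 1)) := by
    intro x
    simp only [Fin.sum_univ_two, mulVec_add, dotProduct_add, add_dotProduct,
      smul_dotProduct, mulVec_smul, dotProduct_smul, smul_eq_mul]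
    ring
  by_cases ha : b 0 ⬝ᵥ (G *ᵥ b 0) = 0
  · refine ⟨![1, 0], fun h => one_ne_zero (congrFun h 0), ?_⟩
    rw [hexp]
    simp [ha]
  · refine ⟨![-(b 0 ⬝ᵥ (G *ᵥ b 1)) + r, b 0 ⬝ᵥ (G *ᵥ b 0)], fun h => ha (congrFun h 1), ?_⟩
    rw [hexp]
    simp only [cons_val_zero, cons_val_one]
    rw [← hs] at hr ⊢
    linear_combination (-(b 0 ⬝ᵥ (G *ᵥ b 0))) * hr

/-- the Gram determinants of a family and of a family of two vectors orthogonal to it -/
lemma det_gram {ι κ : Type*} [Fintype ι] [DecidableEq ι] [Fintype κ] [DecidableEq κ]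
    (e : ι ≃ κ ⊕ Fin 2) (G : Matrix ι ι K) (φ : Matrix κ ι K) (C : Matrix (Fin 2) ι K)
    (h1 : φ * G * Cᵀ = 0) (h2 : C * G * φᵀ = 0) :
    (((fromRows φ C).submatrix e id).det) ^ 2 * G.det =
      (φ * G * φᵀ).det * (C * G * Cᵀ).det := by
  have h3' : fromRows φ C * G * (fromRows φ C)ᵀ =
      fromBlocks (φ * G * φᵀ) 0 0 (C * G * Cᵀ) := by
    rw [fromRows_mul, transpose_fromRows, fromRows_mul_fromCols, h1, h2]
  have h3 : (fromRows φ C).submatrix e id * G * ((fromRows φ C).submatrix e id)ᵀ =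
      (fromBlocks (φ * G * φᵀ) 0 0 (C * G * Cᵀ)).submatrix e e := by
    rw [← h3']
    ext i j
    simp only [Matrix.mul_apply, Matrix.submatrix_apply, Matrix.transpose_apply, id]
  have h4 := congrArg Matrix.det h3
  rw [det_mul, det_mul, det_transpose, det_submatrix_equiv_self, det_fromBlocks_zero₂₁] at h4
  rw [← h4]
  ring

/-- **isotropic vectors in an orthogonal complement of dimension two** -/
theorem isotropic_orth (hC : IsC1 K) {ι κ : Type*} [Fintype ι] [DecidableEq ι] [Fintype κ]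
    [DecidableEq κ] (e : ι ≃ κ ⊕ Fin 2) (G : Matrix ι ι K) (hG : Gᵀ = G) (hdet : G.det ≠ 0)
    (φ : Matrix κ ι K) (d : K) (hd : -((φ * G * φᵀ).det * G.det) = d ^ 2) :
    ∃ c : ι → K, c ≠ 0 ∧ φ *ᵥ (G *ᵥ c) = 0 ∧ c ⬝ᵥ (G *ᵥ c) = 0 := by
  classical
  have hcard : Fintype.card ι = Fintype.card κ + 2 := by
    rw [Fintype.card_congr e, Fintype.card_sum, Fintype.card_fin]
  -- the kernel
  have hker : ∀ c, c ∈ LinearMap.ker (Matrix.mulVecLin (φ * G)) ↔ φ *ᵥ (G *ᵥ c) = 0 := by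
    intro c
    rw [LinearMap.mem_ker, Matrix.mulVecLin_apply, ← Matrix.mulVec_mulVec]
  have hrk := LinearMap.finrank_range_add_finrank_ker (Matrix.mulVecLin (φ * G))
  rw [Module.finrank_fintype_fun_eq_card] at hrk
  have hsymm : ∀ x y : ι → K, x ⬝ᵥ (G *ᵥ y) = y ⬝ᵥ (G *ᵥ x) := by
    intro x y
    rw [dotProduct_comm, Matrix.dotProduct_mulVec y, ← Matrix.mulVec_transpose, hG]
  by_cases hD : (φ * G * φᵀ).det = 0
  · obtain ⟨y, hy0, hy⟩ := Matrix.exists_mulVec_eq_zero_iff.2 hD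
    have h1 : φ *ᵥ (G *ᵥ (φᵀ *ᵥ y)) = 0 := by
      rw [Matrix.mulVec_mulVec, Matrix.mulVec_mulVec, Matrix.mul_assoc] at *
      exact hy
    by_cases hc : φᵀ *ᵥ y = 0
    · -- the family is dependent
      have hrange : LinearMap.range (Matrix.mulVecLin (φ * G)) ≤
          LinearMap.ker (LinearMap.proj 0 ∘ₗ Matrix.mulVecLin (Matrix.of fun (_ : Fin 1) => y)) := by
        rintro _ ⟨x, rfl⟩
        rw [LinearMap.mem_ker]
        change y ⬝ᵥ ((φ * G) *ᵥ x) = 0
        rw [← Matrix.mulVec_mulVec, Matrix.dotProduct_mulVec, ← Matrix.mulVec_transpose, hc,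
          zero_dotProduct]
      have hlt : Module.finrank K (LinearMap.range (Matrix.mulVecLin (φ * G))) < Fintype.card κ := by
        rw [← Module.finrank_fintype_fun_eq_card K (η := κ)]
        apply Submodule.finrank_lt
        intro htop
        rw [htop, top_le_iff] at hrange
        apply hy0
        funext k
        have h2 : (Pi.single k 1 : κ → K) ∈
          LinearMap.ker (LinearMap.proj 0 ∘ₗ Matrix.mulVecLin (Matrix.of fun (_ : Fin 1) => y)) := by
          rw [hrange]; trivial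
        rw [LinearMap.mem_ker] at h2
        change y ⬝ᵥ (Pi.single k 1) = 0 at h2
        simpa using h2
      have h3 : 3 ≤ Module.finrank K (LinearMap.ker (Matrix.mulVecLin (φ * G))) := by omega
      obtain ⟨b, hb⟩ := exists_linearIndependent_of_le_finrank (R := K) h3
      obtain ⟨x, hx0, hx⟩ := ternary hC G (fun i => (b i : ι → K))
      refine ⟨∑ i, x i • (b i : ι → K), ?_, ?_, hx⟩
      · intro h0
        apply hx0
        have h1 : ∑ i, x i • b i = 0 := by
          apply Subtype.ext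
          simpa using h0
        funext i
        exact Fintype.linearIndependent_iff.1 hb x h1 i
      · rw [← hker]
        exact Submodule.sum_mem _ fun i _ => Submodule.smul_mem _ _ (b i).2
    · refine ⟨φᵀ *ᵥ y, hc, h1, ?_⟩
      rw [Matrix.mulVec_transpose, ← Matrix.dotProduct_mulVec, ← Matrix.mulVec_transpose, h1,
        dotProduct_zero]
  · have h2 : 2 ≤ Module.finrank K (LinearMap.ker (Matrix.mulVecLin (φ * G))) := by
      have := Submodule.finrank_le (LinearMap.range (Matrix.mulVecLin (φ * G)))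
      rw [Module.finrank_fintype_fun_eq_card] at this
      omega
    obtain ⟨b, hb⟩ := exists_linearIndependent_of_le_finrank (R := K) h2
    have hbk : ∀ i, φ *ᵥ (G *ᵥ (b i : ι → K)) = 0 := fun i => (hker _).1 (b i).2
    let C : Matrix (Fin 2) ι K := Matrix.of fun i => (b i : ι → K)
    have h1 : φ * G * Cᵀ = 0 := by
      ext k i
      rw [Matrix.mul_assoc]
      have := congrFun (hbk i) k
      simpa [Matrix.mul_apply, Matrix.mulVec, dotProduct, C] using this
    have h1' : C * G * φᵀ = 0 := by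
      have := congrArg Matrix.transpose h1
      rw [Matrix.transpose_mul, Matrix.transpose_mul, hG, Matrix.transpose_transpose,
        Matrix.transpose_zero, ← Matrix.mul_assoc] at this
      exact this
    have hgram := det_gram e G φ C h1 h1'
    set P := ((fromRows φ C).submatrix e id).det with hP
    have hC2 : (C * G * Cᵀ).det = ((b 0 : ι → K) ⬝ᵥ (G *ᵥ (b 0 : ι → K))) *
        ((b 1 : ι → K) ⬝ᵥ (G *ᵥ (b 1 : ι → K))) - ((b 0 : ι → K) ⬝ᵥ (G *ᵥ (b 1 : ι → K))) *
        ((b 1 : ι → K) ⬝ᵥ (G *ᵥ (b 0 : ι → K))) := by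
      have h5 : ∀ i j, (C * G * Cᵀ) i j = (b i : ι → K) ⬝ᵥ (G *ᵥ (b j : ι → K)) := by
        intro i j
        rw [Matrix.mul_assoc]
        simp [Matrix.mul_apply, Matrix.mulVec, dotProduct, C]
      rw [Matrix.det_fin_two, h5, h5, h5, h5]
    have hd0 : d ≠ 0 := by
      intro h0
      rw [h0, zero_pow two_ne_zero, neg_eq_zero, mul_eq_zero] at hd
      tauto
    obtain ⟨x, hx0, hx⟩ := binary G (fun i => (b i : ι → K)) (hsymm _ _) (P * G.det / d) (by
      rw [← hC2, div_pow, eq_div_iff (pow_ne_zero 2 hd0), ← hd]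
      linear_combination (-G.det) * hgram)
    refine ⟨∑ i, x i • (b i : ι → K), ?_, ?_, hx⟩
    · intro h0
      apply hx0
      have h1 : ∑ i, x i • b i = 0 := by
        apply Subtype.ext
        simpa using h0
      funext i
      exact Fintype.linearIndependent_iff.1 hb x h1 i
    · rw [← hker]
      exact Submodule.sum_mem _ fun i _ => Submodule.smul_mem _ _ (b i).2

end Pool.Agent.Helper45.MK
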