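import Pool.Agent.Helper45.MK.Frame
import Pool.Agent.Helper45.MK.Iso

/-! From a null vector to a pure spinor orthogonal to six vectors. -/

open Matrix

namespace Pool.Agent.Helper45.MK

open Pool.Agent.Helper45.SC1 (IsC1)

variable {K : Type*} [Field K]

theorem spin8 (hC : IsC1 K) (h2 : (2 : K) ≠ 0) {X : Fin 10 → K} (hX0 : X ≠ 0) (hX : nn X = 0)
    (l : Fin 6 → Fin 16 → K) (d : K)
    (hd : -(Matrix.of fun i j => bb X (l i) (l j)).det = d ^ 2) :
    ∃ s : Fin 16 → K, s ≠ 0 ∧ qq s = 0 ∧ (∀ i, l i ⬝ᵥ s = 0) ∧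
      ∀ r, cc X r = 0 → r ⬝ᵥ s = 0 := by
  obtain ⟨m, hm⟩ := Function.ne_iff.1 hX0
  have hm : X m ≠ 0 := hm
  choose φ hφ using fun i => frame_span hX hm (l i)
  set G := gram X m with hG
  have hGdet : G.det = (X m ^ 4 * ∏ k, (sg m k : K)) ^ 2 := det_gram_frame X m
  have hsg : (∏ k, (sg m k : K)) ≠ 0 := by
    intro h
    have := sg_prod_ne (R := K) m
    rw [h] at this
    norm_num at this
  have hGdet0 : G.det ≠ 0 := by
    rw [hGdet]
    exact pow_ne_zero 2 (mul_ne_zero (pow_ne_zero 4 hm) hsg)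
  have h1 : ∀ i b, bb X (l i) (fv m b) = ∑ a, φ i a * G a b := by
    intro i b
    rw [bb_comm, ← bb_of_cc_eq (hφ i), bb_sum_right]
    exact Finset.sum_congr rfl fun a _ => by rw [bb_comm]; rfl
  have h3 : ∀ i (c : Fin 4 ⊕ Fin 4 → K), bb X (l i) (∑ b, c b • fv m b) =
      ∑ b, (∑ a, φ i a * G a b) * c b := by
    intro i c
    rw [bb_sum_right]
    exact Finset.sum_congr rfl fun b _ => by rw [h1, mul_comm]
  have h4 : (Matrix.of fun i j => bb X (l i) (l j)) =
      (Matrix.of φ) * G * (Matrix.of φ)ᵀ := by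
    ext i j
    rw [Matrix.of_apply, ← bb_of_cc_eq (hφ j), h3]
    simp only [Matrix.mul_apply, Matrix.transpose_apply, Matrix.of_apply]
  obtain ⟨c, hc0, hc1, hc2⟩ := isotropic_orth hC
    (Fintype.equivOfCardEq (by simp) : Fin 4 ⊕ Fin 4 ≃ Fin 6 ⊕ Fin 2) G (gram_symm X m) hGdet0
    (Matrix.of φ) (d * (X m ^ 4 * ∏ k, (sg m k : K))) (by
      rw [← h4, hGdet]
      linear_combination ((X m ^ 4 * ∏ k, (sg m k : K)) ^ 2) * hd)
  set t : Fin 16 → K := ∑ b, c b • fv m b with ht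
  have h5 : ∀ j, bb X (fv m j) t = (G *ᵥ c) j := by
    intro j
    rw [ht, bb_sum_right]
    simp only [Matrix.mulVec, dotProduct]
    exact Finset.sum_congr rfl fun b _ => by rw [mul_comm]; rfl
  have h6 : bb X t t = 0 := by
    have h7 : bb X t t = ∑ b, c b * bb X (fv m b) t := by
      conv_lhs => rw [ht]
      rw [bb_sum_left]
    rw [h7, ← hc2]
    simp only [dotProduct, h5]
  have h7 : ∑ j, X j * qq t j = 0 := by
    rw [bb_self] at h6
    exact (mul_eq_zero.1 h6).resolve_left h2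
  refine ⟨cc X t, ?_, ?_, ?_, ?_⟩
  · intro h0
    apply hc0
    apply Matrix.eq_zero_of_mulVec_eq_zero hGdet0
    funext j
    rw [← h5, bb_eq, h0]
    simp
  · funext j
    rw [qq_cc, h7, hX]
    simp
  · intro i
    have h8 : l i ⬝ᵥ cc X t = bb X (l i) t := (bb_eq X _ _).symm
    rw [h8, ht, h3]
    have h9 := congrFun hc1 i
    rw [Matrix.mulVec_mulVec] at h9
    simp only [Matrix.mulVec, dotProduct, Matrix.mul_apply, Matrix.of_apply, Pi.zero_apply] at h9
    exact h9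
  · intro r hr
    have h8 : r ⬝ᵥ cc X t = bb X r t := (bb_eq X _ _).symm
    rw [h8, bb_comm, bb_eq, hr]
    simp

end Pool.Agent.Helper45.MK
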