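import Pool.Agent.Helper45.SC1.Closed

/-! Every section of the `G₂`-variety by at most two hyperplanes has a rational point over a `C1`
field of characteristic not two. -/

open Matrix MvPolynomial

namespace Pool.Agent.Helper45.MK.G2

open Pool.Agent.Helper45.SC1 (IsC1 strongC1)

section Ring

variable {R : Type*} [CommRing R]

/-- a `3 × 3` minor -/
def d3 (u v w : Fin 7 → R) (i j k : Fin 7) : R :=
  u i * (v j * w k - v k * w j) - u j * (v i * w k - v k * w i) + u k * (v i * w j - v j * w i)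

/-- the invariant three-form of `G₂` (trace form of the split octonions) -/
def sigma (u v w : Fin 7 → R) : R :=
  d3 u v w 0 1 4 + d3 u v w 0 2 5 + d3 u v w 0 3 6 + d3 u v w 1 2 3 - d3 u v w 4 5 6

/-- the quadratic form -/
def NN (u : Fin 7 → R) : R := u 0 ^ 2 + u 1 * u 4 + u 2 * u 5 + u 3 * u 6

/-- its polar form -/
def BB (u v : Fin 7 → R) : R :=
  2 * (u 0 * v 0) + u 1 * v 4 + u 4 * v 1 + u 2 * v 5 + u 5 * v 2 + u 3 * v 6 + u 6 * v 3

/-- multiplication of (orthogonal) octonions of trace zero -/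
def MM (u v : Fin 7 → R) : Fin 7 → R :=
  ![u 0 * v 0 + u 1 * v 4 + u 2 * v 5 + u 3 * v 6,
    u 0 * v 1 - v 0 * u 1 - (u 5 * v 6 - u 6 * v 5),
    u 0 * v 2 - v 0 * u 2 - (u 6 * v 4 - u 4 * v 6),
    u 0 * v 3 - v 0 * u 3 - (u 4 * v 5 - u 5 * v 4),
    v 0 * u 4 - u 0 * v 4 + (u 2 * v 3 - u 3 * v 2),
    v 0 * u 5 - u 0 * v 5 + (u 3 * v 1 - u 1 * v 3),
    v 0 * u 6 - u 0 * v 6 + (u 1 * v 2 - u 2 * v 1)]

lemma sigma_MM (u z w : Fin 7 → R) (hN : NN u = 0) (hB : BB u z = 0) :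
    sigma u (MM u z) w = 0 := by
  simp only [NN, BB] at hN hB
  simp only [sigma, d3, MM, Matrix.cons_val]
  linear_combination (2 * (z 0 * w 0) + z 1 * w 4 + z 4 * w 1 + z 2 * w 5 + z 5 * w 2 + z 3 * w 6 +
    z 6 * w 3) * hN - (u 0 * w 0 + u 1 * w 4 + u 2 * w 5 + u 3 * w 6) * hB

lemma BB_MM_self (u w : Fin 7 → R) (hB : BB u w = 0) : BB w (MM u w) = 0 := by
  simp only [BB] at hB
  simp only [BB, MM, Matrix.cons_val]
  linear_combination w 0 * hB

lemma BB_MM_skew (u w z : Fin 7 → R) (hw : BB u w = 0) (hz : BB u z = 0) :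
    BB w (MM u z) + BB (MM u w) z = 0 := by
  simp only [BB] at hw hz
  simp only [BB, MM, Matrix.cons_val]
  linear_combination w 0 * hz + z 0 * hw

end Ring

section Field

variable {K : Type*} [Field K]

lemma eqs {u z : Fin 7 → K} {c : K} (h : c • u = MM u z) :
    c * u 0 = u 0 * z 0 + u 1 * z 4 + u 2 * z 5 + u 3 * z 6 ∧
    c * u 1 = u 0 * z 1 - z 0 * u 1 - (u 5 * z 6 - u 6 * z 5) ∧
    c * u 2 = u 0 * z 2 - z 0 * u 2 - (u 6 * z 4 - u 4 * z 6) ∧
    c * u 3 = u 0 * z 3 - z 0 * u 3 - (u 4 * z 5 - u 5 * z 4) ∧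
    c * u 4 = z 0 * u 4 - u 0 * z 4 + (u 2 * z 3 - u 3 * z 2) ∧
    c * u 5 = z 0 * u 5 - u 0 * z 5 + (u 3 * z 1 - u 1 * z 3) ∧
    c * u 6 = z 0 * u 6 - u 0 * z 6 + (u 1 * z 2 - u 2 * z 1) :=
  ⟨congrFun h 0, congrFun h 1, congrFun h 2, congrFun h 3, congrFun h 4, congrFun h 5,
    congrFun h 6⟩

lemma zero_of {a b d : K} (h : ¬ (a = 0 ∧ b = 0 ∧ d = 0)) {c : K} (ha : c * a = 0)
    (hb : c * b = 0) (hd : c * d = 0) : c = 0 := by
  by_contra hc
  exact h ⟨(mul_eq_zero.1 ha).resolve_left hc, (mul_eq_zero.1 hb).resolve_left hc,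
    (mul_eq_zero.1 hd).resolve_left hc⟩

/-- through every point of the quadric there is a special line -/
lemma exists_z (u : Fin 7 → K) (hu : u ≠ 0) (hN : NN u = 0) :
    ∃ z, BB u z = 0 ∧ ∀ c : K, c • u ≠ MM u z := by
  by_contra hcon
  push Not at hcon
  have hN' : u 0 ^ 2 + u 1 * u 4 + u 2 * u 5 + u 3 * u 6 = 0 := hN
  obtain ⟨c1, h1⟩ := hcon ![0, 0, 0, 0, 0, u 3, -u 2] (by
    simp only [BB, Matrix.cons_val]; ring)
  obtain ⟨c2, h2⟩ := hcon ![0, 0, 0, 0, -u 3, 0, u 1] (by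
    simp only [BB, Matrix.cons_val]; ring)
  obtain ⟨c3, h3⟩ := hcon ![0, 0, 0, 0, u 2, -u 1, 0] (by
    simp only [BB, Matrix.cons_val]; ring)
  obtain ⟨a0, a1, a2, a3, a4, a5, a6⟩ := eqs h1
  obtain ⟨b0, b1, b2, b3, b4, b5, b6⟩ := eqs h2
  obtain ⟨d0, d1, d2, d3, d4, d5, d6⟩ := eqs h3
  simp only [Matrix.cons_val] at a0 a1 a2 a3 a4 a5 a6 b0 b1 b2 b3 b4 b5 b6 d0 d1 d2 d3 d4 d5 d6
  -- `a = 0`
  have ha : u 0 = 0 := by
    by_contra ha
    have hc1 : c1 = 0 := by
      have : c1 * u 0 = 0 := by rw [a0]; ring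
      exact (mul_eq_zero.1 this).resolve_right ha
    have hc2 : c2 = 0 := by
      have : c2 * u 0 = 0 := by rw [b0]; ring
      exact (mul_eq_zero.1 this).resolve_right ha
    have hu3 : u 3 = 0 := by
      have : u 0 * u 3 = 0 := by linear_combination a5 - u 5 * hc1
      exact (mul_eq_zero.1 this).resolve_left ha
    have hu2 : u 2 = 0 := by
      have : u 0 * u 2 = 0 := by linear_combination u 6 * hc1 - a6
      exact (mul_eq_zero.1 this).resolve_left ha
    have hu1 : u 1 = 0 := by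
      have : u 0 * u 1 = 0 := by linear_combination b6 - u 6 * hc2
      exact (mul_eq_zero.1 this).resolve_left ha
    apply ha
    have : u 0 ^ 2 = 0 := by linear_combination hN' - u 4 * hu1 - u 5 * hu2 - u 6 * hu3
    exact pow_eq_zero_iff (two_ne_zero) |>.1 this
  -- `x = 0` or `y = 0`
  have hxy : (u 4 = 0 ∧ u 5 = 0 ∧ u 6 = 0) ∨ (u 1 = 0 ∧ u 2 = 0 ∧ u 3 = 0) := by
    by_cases hy : u 4 = 0 ∧ u 5 = 0 ∧ u 6 = 0
    · exact Or.inl hy
    right
    have hc1 : c1 = 0 := zero_of hy (by rw [a4, ha]; ring) (by rw [a5, ha]; ring)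
      (by rw [a6, ha]; ring)
    have hc2 : c2 = 0 := zero_of hy (by rw [b4, ha]; ring) (by rw [b5, ha]; ring)
      (by rw [b6, ha]; ring)
    have hc3 : c3 = 0 := zero_of hy (by rw [d4, ha]; ring) (by rw [d5, ha]; ring)
      (by rw [d6, ha]; ring)
    rw [hc1, zero_mul] at a1 a2 a3
    rw [hc2, zero_mul] at b1 b2 b3
    rw [hc3, zero_mul] at d1 d2 d3
    refine ⟨zero_of hy ?_ ?_ ?_, zero_of hy ?_ ?_ ?_, zero_of hy ?_ ?_ ?_⟩
    · linear_combination hN' + a1 - u 0 * ha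
    · linear_combination b1
    · linear_combination d1
    · linear_combination a2
    · linear_combination hN' + b2 - u 0 * ha
    · linear_combination d2
    · linear_combination a3
    · linear_combination b3
    · linear_combination hN' + d3 - u 0 * ha
  clear a0 a1 a2 a3 a4 a5 a6 b0 b1 b2 b3 b4 b5 b6 d0 d1 d2 d3 d4 d5 d6 h1 h2 h3
  rcases hxy with ⟨h4, h5, h6⟩ | ⟨h1, h2, h3⟩
  · obtain ⟨c1, k1⟩ := hcon ![0, 1, 0, 0, 0, 0, 0] (by
      simp only [BB, Matrix.cons_val]; linear_combination h4)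
    obtain ⟨c2, k2⟩ := hcon ![0, 0, 1, 0, 0, 0, 0] (by
      simp only [BB, Matrix.cons_val]; linear_combination h5)
    obtain ⟨-, -, -, -, a4, a5, a6⟩ := eqs k1
    obtain ⟨-, -, -, -, b4, b5, b6⟩ := eqs k2
    simp only [Matrix.cons_val] at a5 a6 b6
    have e3 : u 3 = 0 := by linear_combination c1 * h5 - a5
    have e2 : u 2 = 0 := by linear_combination a6 - c1 * h6
    have e1 : u 1 = 0 := by linear_combination c2 * h6 - b6
    apply hu
    funext i
    fin_cases i <;> assumption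
  · obtain ⟨c1, k1⟩ := hcon ![0, 0, 0, 0, 1, 0, 0] (by
      simp only [BB, Matrix.cons_val]; linear_combination h1)
    obtain ⟨c2, k2⟩ := hcon ![0, 0, 0, 0, 0, 1, 0] (by
      simp only [BB, Matrix.cons_val]; linear_combination h2)
    obtain ⟨-, a1, a2, a3, -, -, -⟩ := eqs k1
    obtain ⟨-, b1, b2, b3, -, -, -⟩ := eqs k2
    simp only [Matrix.cons_val] at a2 a3 b3
    have e6 : u 6 = 0 := by linear_combination a2 - c1 * h2
    have e5 : u 5 = 0 := by linear_combination c1 * h3 - a3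
    have e4 : u 4 = 0 := by linear_combination b3 - c2 * h3
    apply hu
    funext i
    fin_cases i <;> assumption

lemma BB_smul (c : K) (u v : Fin 7 → K) : BB (c • u) v = c * BB u v := by
  simp only [BB, Pi.smul_apply, smul_eq_mul]
  ring

/-- the vector representing a bilinear form -/
def ww {R : Type*} [CommRing R] (β : Fin 7 → Fin 7 → R) (u : Fin 7 → R) : Fin 7 → R :=
  ![∑ j, u j * β j 0, 2 * ∑ j, u j * β j 4, 2 * ∑ j, u j * β j 5, 2 * ∑ j, u j * β j 6,
    2 * ∑ j, u j * β j 1, 2 * ∑ j, u j * β j 2, 2 * ∑ j, u j * β j 3]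

lemma BB_ww {R : Type*} [CommRing R] (β : Fin 7 → Fin 7 → R) (u z : Fin 7 → R) :
    BB (ww β u) z = 2 * ∑ k, (∑ j, u j * β j k) * z k := by
  simp only [BB, ww, Matrix.cons_val, Fin.sum_univ_seven]
  ring

lemma BB_comm {R : Type*} [CommRing R] (u v : Fin 7 → R) : BB u v = BB v u := by
  simp only [BB]
  ring

lemma hom_MM {a b : ℕ} {u v : Fin 7 → MvPolynomial (Fin 7) K} (hu : ∀ i, (u i).IsHomogeneous a)
    (hv : ∀ i, (v i).IsHomogeneous b) (i : Fin 7) : (MM u v i).IsHomogeneous (a + b) := by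
  have m : ∀ i j, (u i * v j).IsHomogeneous (a + b) := fun i j => (hu i).mul (hv j)
  have m' : ∀ i j, (v i * u j).IsHomogeneous (a + b) := fun i j => by
    rw [add_comm a b]; exact (hv i).mul (hu j)
  fin_cases i
  · exact (((m 0 0).add (m 1 4)).add (m 2 5)).add (m 3 6)
  · exact ((m 0 1).sub (m' 0 1)).sub ((m 5 6).sub (m 6 5))
  · exact ((m 0 2).sub (m' 0 2)).sub ((m 6 4).sub (m 4 6))
  · exact ((m 0 3).sub (m' 0 3)).sub ((m 4 5).sub (m 5 4))
  · exact ((m' 0 4).sub (m 0 4)).add ((m 2 3).sub (m 3 2))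
  · exact ((m' 0 5).sub (m 0 5)).add ((m 3 1).sub (m 1 3))
  · exact ((m' 0 6).sub (m 0 6)).add ((m 1 2).sub (m 2 1))

lemma hom_two {a : ℕ} {p : MvPolynomial (Fin 7) K} (hp : p.IsHomogeneous a) :
    (2 * p).IsHomogeneous a := by
  rw [two_mul]
  exact hp.add hp

lemma hom_BB {a b : ℕ} {u v : Fin 7 → MvPolynomial (Fin 7) K} (hu : ∀ i, (u i).IsHomogeneous a)
    (hv : ∀ i, (v i).IsHomogeneous b) : (BB u v).IsHomogeneous (a + b) := by
  have m : ∀ i j, (u i * v j).IsHomogeneous (a + b) := fun i j => (hu i).mul (hv j)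
  exact ((((((hom_two (m 0 0)).add (m 1 4)).add (m 4 1)).add (m 2 5)).add (m 5 2)).add
    (m 3 6)).add (m 6 3)

lemma hom_NN : (NN (fun i => (X i : MvPolynomial (Fin 7) K))).IsHomogeneous 2 := by
  have m : ∀ i j, (X i * X j : MvPolynomial (Fin 7) K).IsHomogeneous 2 := fun i j =>
    (isHomogeneous_X K i).mul (isHomogeneous_X K j)
  unfold NN
  rw [sq]
  exact (((m 0 0).add (m 1 4)).add (m 2 5)).add (m 3 6)

lemma hom_ww (β : Fin 7 → Fin 7 → K) (i : Fin 7) :
    (ww (fun j k => C (β j k)) (fun i => (X i : MvPolynomial (Fin 7) K)) i).IsHomogeneous 1 := by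
  have m : ∀ k, (∑ j, (X j : MvPolynomial (Fin 7) K) * C (β j k)).IsHomogeneous 1 := by
    intro k
    apply IsHomogeneous.sum
    intro j _
    have := (isHomogeneous_X K j).mul (isHomogeneous_C (Fin 7) (β j k))
    simpa using this
  fin_cases i
  · exact m 0
  all_goals exact hom_two (m _)

section maps

variable {R S : Type*} [CommRing R] [CommRing S] (f : R →+* S)

lemma map_NN (u : Fin 7 → R) : f (NN u) = NN (f ∘ u) := by
  simp [NN]

lemma map_BB (u v : Fin 7 → R) : f (BB u v) = BB (f ∘ u) (f ∘ v) := by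
  have h2 : f 2 = 2 := map_ofNat f 2
  simp [BB, h2]

lemma map_MM (u v : Fin 7 → R) : f ∘ MM u v = MM (f ∘ u) (f ∘ v) := by
  funext i
  fin_cases i <;> simp [MM]

lemma map_ww (β : Fin 7 → Fin 7 → R) (u : Fin 7 → R) :
    f ∘ ww β u = ww (fun j k => f (β j k)) (f ∘ u) := by
  have h2 : f 2 = 2 := map_ofNat f 2
  funext i
  fin_cases i <;> simp [ww, h2]

end maps

lemma indep {u v : Fin 7 → K} (hu : u ≠ 0) (h : ∀ c : K, c • u ≠ v) :
    LinearIndependent K ![u, v] := by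
  rw [LinearIndependent.pair_iff]
  intro s t hst
  have ht : t = 0 := by
    by_contra ht
    apply h (-(t⁻¹ * s))
    have : v = t⁻¹ • (t • v) := by rw [smul_smul, inv_mul_cancel₀ ht, one_smul]
    rw [this, eq_neg_of_add_eq_zero_right hst, smul_neg, smul_smul, neg_smul]
  refine ⟨?_, ht⟩
  rw [ht, zero_smul, add_zero] at hst
  exact (smul_eq_zero.1 hst).resolve_right hu

/-- **codimension two sections of the `G₂`-variety** -/
theorem g2 (hC : IsC1 K) (h2 : (2 : K) ≠ 0)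
    (b : Fin 2 → (Fin 7 → K) →ₗ[K] (Fin 7 → K) →ₗ[K] K) (hb : ∀ i x, b i x x = 0) :
    ∃ u v : Fin 7 → K, LinearIndependent K ![u, v] ∧ (∀ w, sigma u v w = 0) ∧
      ∀ i, b i u v = 0 := by
  let β : Fin 2 → Fin 7 → Fin 7 → K := fun i j k => b i (Pi.single j 1) (Pi.single k 1)
  let U : Fin 7 → MvPolynomial (Fin 7) K := fun i => X i
  let W : Fin 2 → Fin 7 → MvPolynomial (Fin 7) K := fun i => ww (fun j k => C (β i j k)) U
  let q : Fin 2 → MvPolynomial (Fin 7) K := ![NN U, BB (W 0) (MM U (W 1))]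
  obtain ⟨u, hu0, hu⟩ := strongC1 hC (fun _ : Fin 7 => 1) (fun _ => le_rfl) (![2, 3] : Fin 2 → ℕ)
    (by intro i; fin_cases i <;> simp) q (by
      intro i
      fin_cases i
      · exact hom_NN
      · exact hom_BB (a := 1) (b := 1 + 1) (hom_ww (β 0))
          (hom_MM (fun i => isHomogeneous_X K i) (hom_ww (β 1)))) (by simp)
  have hUe : (eval u : MvPolynomial (Fin 7) K → K) ∘ U = u := by
    funext i; simp [U]
  have hWe : ∀ i, (eval u : MvPolynomial (Fin 7) K → K) ∘ W i = ww (β i) u := by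
    intro i
    rw [show (⇑(eval u) ∘ W i) = _ from map_ww (eval u) _ U]
    simp only [eval_C]
    rw [hUe]
  have hN : NN u = 0 := by
    have h1 := hu 0
    change eval u (NN U) = 0 at h1
    rwa [map_NN, hUe] at h1
  have hc : BB (ww (β 0) u) (MM u (ww (β 1) u)) = 0 := by
    have h1 := hu 1
    change eval u (BB (W 0) (MM U (W 1))) = 0 at h1
    rwa [map_BB, map_MM, hUe, hWe, hWe] at h1
  -- the vectors represent the forms
  have hrep : ∀ i z, BB (ww (β i) u) z = 2 * b i u z := by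
    intro i z
    rw [BB_ww]
    congr 1
    have h1 : ∀ x : Fin 7 → K, x = ∑ j, x j • (Pi.single j 1 : Fin 7 → K) := by
      intro x
      funext k
      simp [Finset.sum_apply, Pi.single_apply]
    conv_rhs => rw [h1 u, h1 z]
    simp only [map_sum, LinearMap.sum_apply, map_smul, LinearMap.smul_apply, smul_eq_mul, β]
    exact Finset.sum_congr rfl fun k _ => mul_comm _ _
  have hw : ∀ i, BB u (ww (β i) u) = 0 := by
    intro i
    rw [BB_comm, hrep, hb, mul_zero]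
  have hfin : ∀ i v, BB (ww (β i) u) v = 0 → b i u v = 0 := by
    intro i v h
    rw [hrep] at h
    exact (mul_eq_zero.1 h).resolve_left h2
  by_cases k2 : ∀ c : K, c • u ≠ MM u (ww (β 1) u)
  · refine ⟨u, _, indep hu0 k2, fun w => sigma_MM _ _ _ hN (hw 1), fun i => hfin i _ ?_⟩
    fin_cases i
    · exact hc
    · exact BB_MM_self _ _ (hw 1)
  push Not at k2
  obtain ⟨c2, k2⟩ := k2
  by_cases k1 : ∀ c : K, c • u ≠ MM u (ww (β 0) u)
  · refine ⟨u, _, indep hu0 k1, fun w => sigma_MM _ _ _ hN (hw 0), fun i => hfin i _ ?_⟩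
    fin_cases i
    · exact BB_MM_self _ _ (hw 0)
    · have h1 := BB_MM_skew u (ww (β 1) u) (ww (β 0) u) (hw 1) (hw 0)
      rw [← k2, BB_smul, hw 0, mul_zero, add_zero] at h1
      exact h1
  push Not at k1
  obtain ⟨c1, k1⟩ := k1
  obtain ⟨z, hz, hz2⟩ := exists_z u hu0 hN
  refine ⟨u, _, indep hu0 hz2, fun w => sigma_MM _ _ _ hN hz, fun i => hfin i _ ?_⟩
  have h1 := BB_MM_skew u (ww (β i) u) z (hw i) hz
  have h3 : ∃ c : K, c • u = MM u (ww (β i) u) := by
    fin_cases i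
    · exact ⟨c1, k1⟩
    · exact ⟨c2, k2⟩
  obtain ⟨c, h3⟩ := h3
  rw [← h3, BB_smul, hz, mul_zero, add_zero] at h1
  exact h1

end Field

end Pool.Agent.Helper45.MK.G2
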