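import Pool.Agent.Helper45.MK.Iso

/-! Prime Fano threefolds of genus twelve and six (Gushel-Mukai). -/

open Matrix MvPolynomial

namespace Pool.Agent.Helper45.MK

open Pool.Agent.Helper45.SC1 (IsC1)

variable {K : Type*} [Field K]

/-- vectors which are independent modulo a given nonzero vector -/
lemma extend {S : Type*} [AddCommGroup S] [Module K S] [FiniteDimensional K S] (e : S) (n : ℕ)
    (h : n + 1 ≤ Module.finrank K S) :
    ∃ b : Fin n → S, ∀ (x : Fin n → K) (t : K), ∑ i, x i • b i = t • e → x = 0 := by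
  have h1 : Module.finrank K (Submodule.span K {e}) ≤ 1 := by
    simpa using finrank_span_le_card (R := K) ({e} : Set S)
  have h2 := Submodule.finrank_quotient_add_finrank (Submodule.span K {e})
  obtain ⟨b, hb⟩ := exists_linearIndependent_of_le_finrank (R := K)
    (M := S ⧸ Submodule.span K {e}) (n := n) (by omega)
  choose c hc using fun i => Submodule.mkQ_surjective (Submodule.span K {e}) (b i)
  refine ⟨c, fun x t hx => ?_⟩
  have h3 : ∑ i, x i • b i = 0 := by
    have h4 : (Submodule.span K {e}).mkQ (∑ i, x i • c i) = 0 := by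
      rw [hx, Submodule.mkQ_apply, Submodule.Quotient.mk_eq_zero]
      exact Submodule.smul_mem _ _ (Submodule.mem_span_singleton_self e)
    rw [map_sum] at h4
    rw [← h4]
    refine Finset.sum_congr rfl fun i _ => ?_
    rw [map_smul, hc]
  funext i
  exact Fintype.linearIndependent_iff.1 hb x h3 i

/-- a ternary quadratic form over a `C1` field is isotropic -/
lemma ternaryQ (hC : IsC1 K) {M : Type*} [AddCommGroup M] [Module K M] (Q : QuadraticForm K M)
    (b : Fin 3 → M) : ∃ x : Fin 3 → K, x ≠ 0 ∧ Q (∑ i, x i • b i) = 0 := by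
  let G : Matrix (Fin 3) (Fin 3) K := !![Q (b 0), QuadraticMap.polar Q (b 0) (b 1),
    QuadraticMap.polar Q (b 0) (b 2); 0, Q (b 1), QuadraticMap.polar Q (b 1) (b 2); 0, 0, Q (b 2)]
  obtain ⟨x, hx0, hx⟩ := ternary hC G (fun i => Pi.single i 1)
  refine ⟨x, hx0, ?_⟩
  have h1 : (∑ i, x i • (Pi.single i 1 : Fin 3 → K)) = x := by
    funext k
    simp [Finset.sum_apply, Pi.single_apply]
  rw [h1] at hx
  have h2 : Q (∑ i, x i • b i) = x 0 * (x 0 * Q (b 0)) + x 1 * (x 1 * Q (b 1)) +
      x 2 * (x 2 * Q (b 2)) + x 0 * x 1 * QuadraticMap.polar Q (b 0) (b 1) +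
      x 0 * x 2 * QuadraticMap.polar Q (b 0) (b 2) +
      x 1 * x 2 * QuadraticMap.polar Q (b 1) (b 2) := by
    rw [Fin.sum_univ_three, QuadraticMap.map_add Q, QuadraticMap.map_add Q,
      QuadraticMap.polar_add_left]
    simp only [QuadraticMap.polar_smul_left, QuadraticMap.polar_smul_right,
      QuadraticMap.map_smul, smul_eq_mul]
    ring
  rw [h2, ← hx]
  simp only [dotProduct, mulVec, G, Fin.sum_univ_three]
  simp
  ring

/-- decomposable bivectors in dimension four -/
lemma plane4 (p : Fin 6 → K) (hp0 : p ≠ 0) (hq : p 0 * p 5 - p 1 * p 4 + p 2 * p 3 = 0) :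
    ∃ (c d : Fin 4 → K) (r : K), (∃ a b, c a = 0 ∧ c b ≠ 0 ∧ d b = 0 ∧ d a ≠ 0) ∧
      c 0 * d 1 - c 1 * d 0 = r * p 0 ∧ c 0 * d 2 - c 2 * d 0 = r * p 1 ∧
      c 0 * d 3 - c 3 * d 0 = r * p 2 ∧ c 1 * d 2 - c 2 * d 1 = r * p 3 ∧
      c 1 * d 3 - c 3 * d 1 = r * p 4 ∧ c 2 * d 3 - c 3 * d 2 = r * p 5 := by
  obtain ⟨i, hi⟩ := Function.ne_iff.1 hp0
  have hi : p i ≠ 0 := hi
  fin_cases i
  · refine ⟨![0, p 0, p 1, p 2], ![-p 0, 0, p 3, p 4], p 0,
      ⟨0, 1, rfl, hi, rfl, neg_ne_zero.2 hi⟩, ?_⟩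
    simp only [Matrix.cons_val]
    refine ⟨?_, ?_, ?_, ?_, ?_, ?_⟩
    · ring
    · ring
    · ring
    · ring
    · ring
    · linear_combination -hq
  · refine ⟨![0, p 0, p 1, p 2], ![-p 1, -p 3, 0, p 5], p 1,
      ⟨0, 2, rfl, hi, rfl, neg_ne_zero.2 hi⟩, ?_⟩
    simp only [Matrix.cons_val]
    refine ⟨?_, ?_, ?_, ?_, ?_, ?_⟩
    · ring
    · ring
    · ring
    · ring
    · linear_combination hq
    · ring
  · refine ⟨![0, p 0, p 1, p 2], ![-p 2, -p 4, -p 5, 0], p 2,
      ⟨0, 3, rfl, hi, rfl, neg_ne_zero.2 hi⟩, ?_⟩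
    simp only [Matrix.cons_val]
    refine ⟨?_, ?_, ?_, ?_, ?_, ?_⟩
    · ring
    · ring
    · ring
    · linear_combination -hq
    · ring
    · ring
  · refine ⟨![-p 0, 0, p 3, p 4], ![-p 1, -p 3, 0, p 5], p 3,
      ⟨1, 2, rfl, hi, rfl, neg_ne_zero.2 hi⟩, ?_⟩
    simp only [Matrix.cons_val]
    refine ⟨?_, ?_, ?_, ?_, ?_, ?_⟩
    · ring
    · ring
    · linear_combination -hq
    · ring
    · ring
    · ring
  · refine ⟨![-p 0, 0, p 3, p 4], ![-p 2, -p 4, -p 5, 0], p 4,
      ⟨1, 3, rfl, hi, rfl, neg_ne_zero.2 hi⟩, ?_⟩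
    simp only [Matrix.cons_val]
    refine ⟨?_, ?_, ?_, ?_, ?_, ?_⟩
    · ring
    · linear_combination hq
    · ring
    · ring
    · ring
    · ring
  · refine ⟨![-p 1, -p 3, 0, p 5], ![-p 2, -p 4, -p 5, 0], p 5,
      ⟨2, 3, rfl, hi, rfl, neg_ne_zero.2 hi⟩, ?_⟩
    simp only [Matrix.cons_val]
    refine ⟨?_, ?_, ?_, ?_, ?_, ?_⟩
    · linear_combination -hq
    · ring
    · ring
    · ring
    · ring
    · ring

/-- **genus twelve**: three alternating forms on a space of dimension at least seven vanish on a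
common three-dimensional subspace -/
theorem genus12 (hC : IsC1 K) {V : Type*} [AddCommGroup V] [Module K V] [FiniteDimensional K V]
    (hV : 7 ≤ Module.finrank K V) (η : Fin 3 → V →ₗ[K] V →ₗ[K] K) (hη : ∀ i x, η i x x = 0)
    (hodd : ∃ e : V, e ≠ 0 ∧ ∀ x, η 0 e x = 0) :
    ∃ U : Submodule K V, Module.finrank K U = 3 ∧ ∀ i, ∀ x ∈ U, ∀ y ∈ U, η i x y = 0 := by
  have hsw : ∀ i x y, η i y x = -η i x y := by
    intro i x y
    have h1 := hη i (x + y)
    simp only [map_add, LinearMap.add_apply, hη, zero_add, add_zero] at h1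
    exact eq_neg_of_add_eq_zero_left h1
  obtain ⟨e, he0, he⟩ := hodd
  let φ : V →ₗ[K] (Fin 2 → K) := LinearMap.pi ![η 1 e, η 2 e]
  have hφ : ∀ x, x ∈ LinearMap.ker φ ↔ η 1 e x = 0 ∧ η 2 e x = 0 := by
    intro x
    rw [LinearMap.mem_ker]
    constructor
    · intro h
      exact ⟨congrFun h 0, congrFun h 1⟩
    · rintro ⟨h1, h2⟩
      funext i
      fin_cases i
      · exact h1
      · exact h2
  have hrk := LinearMap.finrank_range_add_finrank_ker φ
  have hr2 : Module.finrank K (LinearMap.range φ) ≤ 2 := by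
    have := Submodule.finrank_le (LinearMap.range φ)
    simpa using this
  have heS : e ∈ LinearMap.ker φ := (hφ e).2 ⟨hη 1 e, hη 2 e⟩
  obtain ⟨b, hb⟩ := extend (K := K) (⟨e, heS⟩ : LinearMap.ker φ) 4 (by omega)
  let w : Fin 4 → V := fun i => b i
  have hw : ∀ i j, η i e (w j) = 0 := by
    intro i j
    have h1 := (hφ (w j)).1 (b j).2
    fin_cases i
    · exact he _
    · exact h1.1
    · exact h1.2
  -- the three linear conditions on bivectors
  let L : (Fin 6 → K) →ₗ[K] (Fin 3 → K) := LinearMap.pi fun i =>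
    η i (w 0) (w 1) • LinearMap.proj 0 + η i (w 0) (w 2) • LinearMap.proj 1 +
      η i (w 0) (w 3) • LinearMap.proj 2 + η i (w 1) (w 2) • LinearMap.proj 3 +
      η i (w 1) (w 3) • LinearMap.proj 4 + η i (w 2) (w 3) • LinearMap.proj 5
  have hrkL := LinearMap.finrank_range_add_finrank_ker L
  rw [Module.finrank_fintype_fun_eq_card] at hrkL
  have hrL : Module.finrank K (LinearMap.range L) ≤ 3 := by
    have := Submodule.finrank_le (LinearMap.range L)
    simpa using this
  obtain ⟨c, hc⟩ := exists_linearIndependent_of_le_finrank (R := K) (M := LinearMap.ker L)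
    (n := 3) (by simp at hrkL; omega)
  let G : Matrix (Fin 6) (Fin 6) K := !![0, 0, 0, 0, 0, 1; 0, 0, 0, 0, -1, 0; 0, 0, 0, 1, 0, 0;
    0, 0, 0, 0, 0, 0; 0, 0, 0, 0, 0, 0; 0, 0, 0, 0, 0, 0]
  obtain ⟨x, hx0, hx⟩ := ternary hC G (fun i => (c i : Fin 6 → K))
  set p : Fin 6 → K := ∑ i, x i • (c i : Fin 6 → K) with hp
  have hp0 : p ≠ 0 := by
    intro h0
    apply hx0
    have h1 : ∑ i, x i • c i = 0 := by
      apply Subtype.ext
      simpa using h0
    funext i
    exact Fintype.linearIndependent_iff.1 hc x h1 i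
  have hpL : p ∈ LinearMap.ker L :=
    Submodule.sum_mem _ fun i _ => Submodule.smul_mem _ _ (c i).2
  have hq : p 0 * p 5 - p 1 * p 4 + p 2 * p 3 = 0 := by
    rw [← hx]
    simp [dotProduct, mulVec, G, Fin.sum_univ_succ]
    ring
  obtain ⟨f, g, r, ⟨a₁, a₂, hf0, hf1, hg0, hg1⟩, e01, e02, e03, e12, e13, e23⟩ := plane4 p hp0 hq
  set y : V := ∑ j, f j • w j with hy
  set z : V := ∑ j, g j • w j with hz
  have hey : ∀ i, η i e y = 0 := by
    intro i
    rw [hy, map_sum]
    exact Finset.sum_eq_zero fun j _ => by rw [map_smul, hw, smul_zero]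
  have hez : ∀ i, η i e z = 0 := by
    intro i
    rw [hz, map_sum]
    exact Finset.sum_eq_zero fun j _ => by rw [map_smul, hw, smul_zero]
  have hyz : ∀ i, η i y z = 0 := by
    intro i
    have h1 : L p i = 0 := congrFun (LinearMap.mem_ker.1 hpL) i
    have h2 : L p i = η i (w 0) (w 1) * p 0 + η i (w 0) (w 2) * p 1 +
      η i (w 0) (w 3) * p 2 + η i (w 1) (w 2) * p 3 +
      η i (w 1) (w 3) * p 4 + η i (w 2) (w 3) * p 5 := rfl
    rw [h2] at h1
    rw [hy, hz]
    simp only [Fin.sum_univ_four, map_add, map_smul, LinearMap.add_apply, LinearMap.smul_apply,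
      smul_eq_mul, hη, hsw i (w 0) (w 1), hsw i (w 0) (w 2), hsw i (w 0) (w 3),
      hsw i (w 1) (w 2), hsw i (w 1) (w 3), hsw i (w 2) (w 3)]
    linear_combination r * h1 + η i (w 0) (w 1) * e01 + η i (w 0) (w 2) * e02 +
      η i (w 0) (w 3) * e03 + η i (w 1) (w 2) * e12 + η i (w 1) (w 3) * e13 +
      η i (w 2) (w 3) * e23
  have hind : LinearIndependent K ![e, y, z] := by
    rw [Fintype.linearIndependent_iff]
    intro s hs
    simp only [Fin.sum_univ_three, Matrix.cons_val_zero, Matrix.cons_val_one,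
      Matrix.cons_val] at hs
    have h1 : ∑ j, (s 1 * f j + s 2 * g j) • b j = (-s 0) • (⟨e, heS⟩ : LinearMap.ker φ) := by
      apply Subtype.ext
      have h3 : ((∑ j, (s 1 * f j + s 2 * g j) • b j : LinearMap.ker φ) : V) =
          s 1 • y + s 2 • z := by
        rw [hy, hz, Finset.smul_sum, Finset.smul_sum, ← Finset.sum_add_distrib]
        simp only [Submodule.coe_sum, Submodule.coe_smul]
        refine Finset.sum_congr rfl fun j _ => ?_
        rw [add_smul, mul_smul, mul_smul]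
      rw [h3]
      change s 1 • y + s 2 • z = (-s 0) • e
      rw [neg_smul, eq_neg_iff_add_eq_zero, ← hs]
      abel
    have h2 := hb _ _ h1
    have k2 := congrFun h2 a₂
    have k1 := congrFun h2 a₁
    simp only [Pi.zero_apply, hf0, hg0, mul_zero, add_zero, zero_add] at k1 k2
    have s1 : s 1 = 0 := (mul_eq_zero.1 k2).resolve_right hf1
    have s2 : s 2 = 0 := (mul_eq_zero.1 k1).resolve_right hg1
    rw [s1, s2, zero_smul, zero_smul, add_zero, add_zero] at hs
    have s0 : s 0 = 0 := (smul_eq_zero.1 hs).resolve_right he0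
    intro i
    fin_cases i <;> assumption
  refine ⟨Submodule.span K (Set.range ![e, y, z]), ?_, ?_⟩
  · rw [finrank_span_eq_card hind]
    simp
  · intro i
    have hbas : ∀ j k : Fin 3, η i (![e, y, z] j) (![e, y, z] k) = 0 := by
      intro j k
      fin_cases j <;> fin_cases k
      · exact hη i e
      · exact hey i
      · exact hez i
      · change η i y e = 0
        rw [hsw, hey, neg_zero]
      · exact hη i y
      · exact hyz i
      · change η i z e = 0
        rw [hsw, hez, neg_zero]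
      · change η i z y = 0
        rw [hsw, hyz, neg_zero]
      · exact hη i z
    intro x hx y hy
    induction hx using Submodule.span_induction with
    | mem x hx =>
      obtain ⟨j, rfl⟩ := hx
      induction hy using Submodule.span_induction with
      | mem y hy =>
        obtain ⟨k, rfl⟩ := hy
        exact hbas j k
      | zero => simp
      | add y y' _ _ h1 h2 => rw [map_add, h1, h2, add_zero]
      | smul a y _ h1 => rw [map_smul, h1, smul_zero]
    | zero => simp
    | add x x' _ _ h1 h2 => rw [map_add, LinearMap.add_apply, h1, h2, add_zero]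
    | smul a x _ h1 => rw [map_smul, LinearMap.smul_apply, h1, smul_zero]

lemma pi_sum {n : ℕ} (x : Fin n → K) : x = ∑ j, x j • (Pi.single j 1 : Fin n → K) := by
  funext k
  simp [Finset.sum_apply, Pi.single_apply]

/-- alternating forms in odd dimension are degenerate -/
lemma odd_kernel (h2 : (2 : K) ≠ 0) {n : ℕ} (hn : Odd n)
    (B : (Fin n → K) →ₗ[K] (Fin n → K) →ₗ[K] K) (hB : ∀ x, B x x = 0) :
    ∃ e : Fin n → K, e ≠ 0 ∧ ∀ x, B e x = 0 := by
  have hsw : ∀ x y, B y x = -B x y := by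
    intro x y
    have h1 := hB (x + y)
    simp only [map_add, LinearMap.add_apply, hB, zero_add, add_zero] at h1
    exact eq_neg_of_add_eq_zero_left h1
  let A : Matrix (Fin n) (Fin n) K := Matrix.of fun i j => B (Pi.single i 1) (Pi.single j 1)
  have hA : Aᵀ = -A := by
    ext i j
    exact hsw _ _
  have hdet : A.det = 0 := by
    have h1 : A.det = -A.det := by
      conv_lhs => rw [← Matrix.det_transpose, hA, Matrix.det_neg, Fintype.card_fin, hn.neg_one_pow]
      ring
    have h3 : 2 * A.det = 0 := by linear_combination h1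
    exact (mul_eq_zero.1 h3).resolve_left h2
  obtain ⟨v, hv0, hv⟩ := Matrix.exists_vecMul_eq_zero_iff.2 hdet
  refine ⟨v, hv0, fun x => ?_⟩
  have h1 : ∀ j, B v (Pi.single j 1) = 0 := by
    intro j
    have h3 := congrFun hv j
    rw [pi_sum v]
    simp only [map_sum, LinearMap.sum_apply, map_smul, LinearMap.smul_apply, smul_eq_mul]
    exact h3
  rw [pi_sum x, map_sum]
  exact Finset.sum_eq_zero fun j _ => by rw [map_smul, h1, smul_zero]

/-- the alternating matrix of a bivector -/
def bvm {n : ℕ} (u v : Fin n → K) : Matrix (Fin n) (Fin n) K :=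
  Matrix.of fun i j => u i * v j - u j * v i

lemma bvm_add {n : ℕ} (u v v' : Fin n → K) : bvm u (v + v') = bvm u v + bvm u v' := by
  ext i j
  simp only [bvm, Matrix.of_apply, Matrix.add_apply, Pi.add_apply]
  ring

lemma bvm_smul {n : ℕ} (u : Fin n → K) (c : K) (v : Fin n → K) : bvm u (c • v) = c • bvm u v := by
  ext i j
  simp only [bvm, Matrix.of_apply, Matrix.smul_apply, Pi.smul_apply, smul_eq_mul]
  ring

lemma bvm_swap {n : ℕ} (u v : Fin n → K) : bvm v u = -bvm u v := by
  ext i j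
  simp only [bvm, Matrix.of_apply, Matrix.neg_apply]
  ring

/-- wedge product with a vector, as a linear map -/
def bvmL {n : ℕ} (u : Fin n → K) : (Fin n → K) →ₗ[K] Matrix (Fin n) (Fin n) K where
  toFun := bvm u
  map_add' := bvm_add u
  map_smul' := bvm_smul u

/-- the kernel of the wedge product -/
lemma bvm_zero {n : ℕ} {u v : Fin n → K} (hu : u ≠ 0) (h : bvm u v = 0) : ∃ c : K, v = c • u := by
  obtain ⟨i, hi⟩ := Function.ne_iff.1 hu
  have hi : u i ≠ 0 := hi
  refine ⟨v i / u i, ?_⟩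
  funext j
  have h1 : u i * v j - u j * v i = 0 := congrFun (congrFun h i) j
  rw [Pi.smul_apply, smul_eq_mul]
  field_simp
  linear_combination h1

/-- **genus six** (Gushel-Mukai threefolds): sections of the cone over `Gr(2,5)` by three hyperplanes
and a quadric -/
theorem genus6 (hC : IsC1 K) (h2 : (2 : K) ≠ 0)
    (f : Fin 3 → (K × Matrix (Fin 5) (Fin 5) K) →ₗ[K] K)
    (Q : QuadraticForm K (K × Matrix (Fin 5) (Fin 5) K)) :
    ∃ (z : K) (u v : Fin 5 → K), (z, bvm u v) ≠ 0 ∧ (∀ i, f i (z, bvm u v) = 0) ∧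
      Q (z, bvm u v) = 0 := by
  classical
  -- a combination of the linear forms which does not involve `z`
  obtain ⟨s, hs0, hs⟩ : ∃ s : Fin 3 → K, s ≠ 0 ∧ ∑ i, s i * f i (1, 0) = 0 := by
    let φ : (Fin 3 → K) →ₗ[K] K := ∑ i, f i (1, 0) • LinearMap.proj i
    have h : LinearMap.ker φ ≠ ⊥ := by
      apply LinearMap.ker_ne_bot_of_finrank_lt
      simp
    obtain ⟨s, hs, hs0⟩ := (Submodule.ne_bot_iff _).1 h
    refine ⟨s, hs0, ?_⟩
    have h1 : φ s = 0 := hs
    simp only [φ, LinearMap.sum_apply, LinearMap.smul_apply, LinearMap.proj_apply,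
      smul_eq_mul] at h1
    rw [← h1]
    exact Finset.sum_congr rfl fun i _ => mul_comm _ _
  let F : (K × Matrix (Fin 5) (Fin 5) K) →ₗ[K] K := ∑ i, s i • f i
  have hF : ∀ x, F x = ∑ i, s i * f i x := by
    intro x
    simp [F]
  have hF1 : F (1, 0) = 0 := by rw [hF]; exact hs
  -- its kernel vector
  let B : (Fin 5 → K) →ₗ[K] (Fin 5 → K) →ₗ[K] K :=
    LinearMap.mk₂ K (fun u v => F (0, bvm u v))
      (fun u u' v => by
        have : bvm (u + u') v = bvm u v + bvm u' v := by
          rw [bvm_swap, bvm_add, bvm_swap v u, bvm_swap v u']; abel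
        rw [this, ← map_add, Prod.mk_add_mk, add_zero])
      (fun c u v => by
        have : bvm (c • u) v = c • bvm u v := by
          rw [bvm_swap, bvm_smul, bvm_swap v u]; simp
        rw [this, ← map_smul, Prod.smul_mk, smul_zero])
      (fun u v v' => by rw [bvm_add, ← map_add, Prod.mk_add_mk, add_zero])
      (fun c u v => by rw [bvm_smul, ← map_smul, Prod.smul_mk, smul_zero])
  have hB : ∀ x, B x x = 0 := by
    intro x
    have h1 : bvm x x = 0 := by
      ext i j
      simp only [bvm, Matrix.of_apply, Matrix.zero_apply]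
      ring
    change F (0, bvm x x) = 0
    rw [h1]
    exact map_zero F
  obtain ⟨u, hu0, hu⟩ := odd_kernel h2 (by decide : Odd 5) B hB
  -- the linear system for `(z, v)`
  let ψ : (K × (Fin 5 → K)) →ₗ[K] (K × Matrix (Fin 5) (Fin 5) K) :=
    LinearMap.prodMap LinearMap.id (bvmL u)
  have hψ : ∀ x, ψ x = (x.1, bvm u x.2) := fun x => rfl
  let Φ : (K × (Fin 5 → K)) →ₗ[K] (Fin 3 → K) := LinearMap.pi fun i => f i ∘ₗ ψ
  have hrange : LinearMap.range Φ ≤
      LinearMap.ker (∑ i, s i • (LinearMap.proj i : (Fin 3 → K) →ₗ[K] K)) := by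
    rintro _ ⟨x, rfl⟩
    rw [LinearMap.mem_ker]
    have h1 : (∑ i, s i • (LinearMap.proj i : (Fin 3 → K) →ₗ[K] K)) (Φ x) = F (ψ x) := by
      rw [hF]
      simp [Φ]
    rw [h1, hψ]
    have h3 : ((x.1, bvm u x.2) : K × Matrix (Fin 5) (Fin 5) K) =
        x.1 • (1, 0) + (0, bvm u x.2) := by
      simp
    rw [h3, map_add, map_smul, hF1, smul_zero, zero_add]
    exact hu x.2
  have hlt : Module.finrank K (LinearMap.range Φ) < 3 := by
    have h3 : Module.finrank K (Fin 3 → K) = 3 := by simp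
    refine lt_of_lt_of_eq (Submodule.finrank_lt ?_) h3
    intro htop
    rw [htop, top_le_iff] at hrange
    apply hs0
    funext k
    have h4 : (Pi.single k 1 : Fin 3 → K) ∈
        LinearMap.ker (∑ i, s i • (LinearMap.proj i : (Fin 3 → K) →ₗ[K] K)) := by
      rw [hrange]; trivial
    rw [LinearMap.mem_ker] at h4
    simpa [Pi.single_apply] using h4
  have hrk := LinearMap.finrank_range_add_finrank_ker Φ
  have h6 : Module.finrank K (K × (Fin 5 → K)) = 6 := by simp
  rw [h6] at hrk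
  have heS : ((0, u) : K × (Fin 5 → K)) ∈ LinearMap.ker Φ := by
    rw [LinearMap.mem_ker]
    funext i
    have h1 : bvm u u = 0 := by
      ext i j
      simp only [bvm, Matrix.of_apply, Matrix.zero_apply]
      ring
    change f i (0, bvm u u) = 0
    rw [h1]
    exact map_zero _
  obtain ⟨b, hb⟩ := extend (K := K) (⟨(0, u), heS⟩ : LinearMap.ker Φ) 3 (by omega)
  obtain ⟨x, hx0, hx⟩ := ternaryQ hC (Q.comp ψ) (fun i => (b i : K × (Fin 5 → K)))
  set y : K × (Fin 5 → K) := ∑ i, x i • (b i : K × (Fin 5 → K)) with hy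
  have hyk : y ∈ LinearMap.ker Φ :=
    Submodule.sum_mem _ fun i _ => Submodule.smul_mem _ _ (b i).2
  refine ⟨y.1, u, y.2, ?_, ?_, hx⟩
  · intro h0
    apply hx0
    obtain ⟨h1, h3⟩ := Prod.mk.inj h0
    obtain ⟨c, hc⟩ := bvm_zero hu0 h3
    apply hb x c
    apply Subtype.ext
    have h5 : ((∑ i, x i • b i : LinearMap.ker Φ) : K × (Fin 5 → K)) = y := by
      rw [hy]
      simp only [Submodule.coe_sum, Submodule.coe_smul]
    rw [h5]
    change y = c • (0, u)
    rw [Prod.smul_mk, smul_zero, ← hc]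
    exact Prod.ext h1 rfl
  · intro i
    exact congrFun (LinearMap.mem_ker.1 hyk) i

end Pool.Agent.Helper45.MK
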