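import Pool.Agent.Helper45.MK.Spinor7
import Pool.Agent.Helper45.MK.G2
import Pool.Agent.Helper45.MK.Small

/-! The spinor tenfold in matrix form. -/

open Matrix

namespace Pool.Agent.Helper45.MK

open Pool.Agent.Helper45.SC1 (IsC1)

variable {K : Type*} [Field K]

/-- The Pfaffian of a `4 × 4` alternating matrix. -/
def pf4 (A : Matrix (Fin 4) (Fin 4) K) : K := A 0 1 * A 2 3 - A 0 2 * A 1 3 + A 0 3 * A 1 2

/-- The ten equations of the (cone over the) spinor tenfold in the half-spin representation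
`K ⊕ Λ² K⁵ ⊕ Λ⁴ K⁵`: `A` is an alternating `5 × 5` matrix, `u v` is the vector of its `4 × 4`
Pfaffians (with signs) and `A v = 0`. -/
def IsPureSpinor (u : K) (A : Matrix (Fin 5) (Fin 5) K) (v : Fin 5 → K) : Prop :=
  (∀ i, A i i = 0) ∧ (∀ i j, A j i = -A i j) ∧ A *ᵥ v = 0 ∧
    ∀ i, u * v i = (-1) ^ (i : ℕ) * pf4 (A.submatrix i.succAbove i.succAbove)

/-- the matrix with given coordinates -/
def Mt (t : Fin 16 → K) : Matrix (Fin 5) (Fin 5) K :=
  !![0, t 1, t 2, t 3, t 4; -t 1, 0, t 5, t 6, t 7; -t 2, -t 5, 0, t 8, t 9;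
    -t 3, -t 6, -t 8, 0, t 10; -t 4, -t 7, -t 9, -t 10, 0]

/-- the last five coordinates -/
def Vt (t : Fin 16 → K) : Fin 5 → K := ![t 11, t 12, t 13, t 14, t 15]

/-- coordinates -/
def Psi : (Fin 16 → K) →ₗ[K] (K × Matrix (Fin 5) (Fin 5) K × (Fin 5 → K)) where
  toFun t := (t 0, Mt t, Vt t)
  map_add' s t := by
    refine Prod.ext rfl (Prod.ext ?_ ?_)
    · ext i j
      fin_cases i <;> fin_cases j <;> simp [Mt] <;> ring
    · funext i
      fin_cases i <;> simp [Vt]
  map_smul' c t := by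
    refine Prod.ext rfl (Prod.ext ?_ ?_)
    · ext i j
      fin_cases i <;> fin_cases j <;> simp [Mt]
    · funext i
      fin_cases i <;> simp [Vt]

lemma Psi_apply (t : Fin 16 → K) : Psi t = (t 0, Mt t, Vt t) := rfl

lemma pure_of_qq {t : Fin 16 → K} (h : qq t = 0) : IsPureSpinor (t 0) (Mt t) (Vt t) := by
  rw [qq_explicit] at h
  have h0 := congrFun h 0
  have h1 := congrFun h 1
  have h2 := congrFun h 2
  have h3 := congrFun h 3
  have h4 := congrFun h 4
  have h5 := congrFun h 5
  have h6 := congrFun h 6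
  have h7 := congrFun h 7
  have h8 := congrFun h 8
  have h9 := congrFun h 9
  simp only [Matrix.cons_val, Pi.zero_apply] at h0 h1 h2 h3 h4 h5 h6 h7 h8 h9
  refine ⟨?_, ?_, ?_, ?_⟩
  · intro i
    fin_cases i <;> simp [Mt]
  · intro i j
    fin_cases i <;> fin_cases j <;> simp [Mt]
  · funext i
    fin_cases i <;> simp [Mt, Vt, mulVec, dotProduct, Fin.sum_univ_succ]
    · linear_combination h5
    · linear_combination h6
    · linear_combination h7
    · linear_combination h8
    · linear_combination h9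
  · intro i
    fin_cases i <;> simp [Mt, Vt, pf4, Fin.succAbove, Fin.lt_def]
    · linear_combination h0
    · linear_combination h1
    · linear_combination h2
    · linear_combination h3
    · linear_combination h4

/-- **genus seven** -/
theorem genus7 (hC : IsC1 K) (h2 : (2 : K) ≠ 0)
    (f : Fin 7 → (K × Matrix (Fin 5) (Fin 5) K × (Fin 5 → K)) →ₗ[K] K) :
    ∃ (u : K) (A : Matrix (Fin 5) (Fin 5) K) (v : Fin 5 → K), (u, A, v) ≠ 0 ∧
      IsPureSpinor u A v ∧ ∀ i, f i (u, A, v) = 0 := by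
  obtain ⟨s, hs0, hs1, hs2⟩ := spinor7 hC h2 (fun i a => f i (Psi (Pi.single a 1)))
  refine ⟨s 0, Mt s, Vt s, ?_, pure_of_qq hs1, ?_⟩
  · intro h0
    apply hs0
    obtain ⟨h1, h3⟩ := Prod.mk.inj h0
    obtain ⟨h3, h4⟩ := Prod.mk.inj h3
    have e : ∀ i j, Mt s i j = 0 := fun i j => congrFun (congrFun h3 i) j
    have e' : ∀ i, Vt s i = 0 := fun i => congrFun h4 i
    funext a
    fin_cases a
    · exact h1
    · exact e 0 1
    · exact e 0 2
    · exact e 0 3
    · exact e 0 4
    · exact e 1 2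
    · exact e 1 3
    · exact e 1 4
    · exact e 2 3
    · exact e 2 4
    · exact e 3 4
    · exact e' 0
    · exact e' 1
    · exact e' 2
    · exact e' 3
    · exact e' 4
  · intro i
    rw [← Psi_apply]
    have h1 := hs2 i
    conv_lhs => rw [pi_sum s]
    rw [← h1]
    simp only [map_sum, map_smul, smul_eq_mul, dotProduct]
    exact Finset.sum_congr rfl fun a _ => mul_comm _ _

end Pool.Agent.Helper45.MK
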