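import Pool.Agent.Helper45.MK.Spin2

/-! The symmetric bilinear form of a null vector: a frame of eight vectors modulo the radical. -/

namespace Pool.Agent.Helper45.MK

section Ring

variable {R : Type*} [CommRing R]

lemma cc_add_left (X Y : Fin 10 → R) (t : Fin 16 → R) : cc (X + Y) t = cc X t + cc Y t := by
  funext a
  simp only [cc, Pi.add_apply, add_mul, Finset.sum_add_distrib]

lemma cc_add_right (X : Fin 10 → R) (s t : Fin 16 → R) : cc X (s + t) = cc X s + cc X t := by
  funext a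
  simp only [cc, Pi.add_apply]
  rw [← Finset.sum_add_distrib]
  refine Finset.sum_congr rfl fun m _ => ?_
  rw [← Finset.sum_add_distrib]
  refine Finset.sum_congr rfl fun k _ => ?_
  rw [← mul_add]
  congr 1
  split_ifs <;> ring

lemma cc_smul_right (X : Fin 10 → R) (c : R) (t : Fin 16 → R) : cc X (c • t) = c • cc X t := by
  funext a
  simp only [cc, Pi.smul_apply, smul_eq_mul, Finset.mul_sum]
  refine Finset.sum_congr rfl fun m _ => Finset.sum_congr rfl fun k _ => ?_
  split_ifs <;> ring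

/-- Clifford multiplication as a linear map -/
def ccL (X : Fin 10 → R) : (Fin 16 → R) →ₗ[R] (Fin 16 → R) where
  toFun := cc X
  map_add' := cc_add_right X
  map_smul' := fun c t => cc_smul_right X c t

lemma ccL_apply (X : Fin 10 → R) (t : Fin 16 → R) : ccL X t = cc X t := rfl

lemma nn_add (X Y : Fin 10 → R) : nn (X + Y) = nn X + nn Y + nb X Y := by
  simp [nn, nb, Fin.sum_univ_succ, tau]
  ring

lemma nn_tau (X : Fin 10 → R) : nn (X ∘ tau) = nn X := by
  rw [tau_explicit]
  simp [nn]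
  ring

lemma cc_cc' (X : Fin 10 → R) (t : Fin 16 → R) : cc (X ∘ tau) (cc X t) = nn X • t := by
  have h := cc_cc (X ∘ tau) t
  have h2 : (X ∘ tau) ∘ tau = X := by
    funext m
    simp [tau_tau]
  rwa [h2, nn_tau] at h

lemma cc_polar (X Y : Fin 10 → R) (s : Fin 16 → R) :
    cc X (cc (Y ∘ tau) s) + cc Y (cc (X ∘ tau) s) = nb X Y • s := by
  have h := cc_cc (X + Y) s
  have h2 : (X + Y) ∘ tau = X ∘ tau + Y ∘ tau := rfl
  rw [h2, cc_add_left, cc_add_left, cc_add_right, cc_add_right, cc_cc, cc_cc, nn_add, add_smul,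
    add_smul] at h
  have h3 : nn X • s + (cc X (cc (Y ∘ tau) s) + cc Y (cc (X ∘ tau) s)) + nn Y • s
      = nn X • s + nb X Y • s + nn Y • s := by
    rw [← sub_eq_zero] at h ⊢
    rw [← h]
    abel
  exact add_left_cancel (add_right_cancel h3)

lemma bb_eq (X : Fin 10 → R) (s t : Fin 16 → R) : bb X s t = ∑ a, s a * cc X t a := by
  have h1 : ∀ a, s a * cc X t a = ∑ m, ∑ k, X m * (sg m k : R) *
      ((if a = ia m k then s (ia m k) * t (ib m k) else 0) +
        (if a = ib m k then s (ib m k) * t (ia m k) else 0)) := by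
    intro a
    rw [cc, Finset.mul_sum]
    refine Finset.sum_congr rfl fun m _ => ?_
    rw [Finset.mul_sum]
    refine Finset.sum_congr rfl fun k _ => ?_
    by_cases h1 : a = ia m k
    · by_cases h2 : a = ib m k
      · rw [if_pos h1, if_pos h2, if_pos h1, if_pos h2, ← h1, ← h2]; ring
      · rw [if_pos h1, if_neg h2, if_pos h1, if_neg h2, ← h1]; ring
    · by_cases h2 : a = ib m k
      · rw [if_neg h1, if_pos h2, if_neg h1, if_pos h2, ← h2]; ring
      · rw [if_neg h1, if_neg h2, if_neg h1, if_neg h2]; ring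
  rw [Finset.sum_congr rfl fun a _ => h1 a, Finset.sum_comm, bb]
  refine Finset.sum_congr rfl fun m _ => ?_
  rw [Finset.sum_comm, qb, Finset.mul_sum]
  refine Finset.sum_congr rfl fun k _ => ?_
  rw [← Finset.mul_sum, Finset.sum_add_distrib, Finset.sum_ite_eq', Finset.sum_ite_eq',
    if_pos (Finset.mem_univ _), if_pos (Finset.mem_univ _)]
  ring

lemma qb_comm (s t : Fin 16 → R) : qb s t = qb t s := by
  funext m
  simp only [qb]
  refine Finset.sum_congr rfl fun k _ => ?_
  ring

lemma qb_self (t : Fin 16 → R) (m : Fin 10) : qb t t m = 2 * qq t m := by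
  simp only [qb, qq, Finset.mul_sum]
  refine Finset.sum_congr rfl fun k _ => ?_
  ring

lemma bb_comm (X : Fin 10 → R) (s t : Fin 16 → R) : bb X s t = bb X t s := by
  simp only [bb, qb_comm s t]

lemma bb_self (X : Fin 10 → R) (t : Fin 16 → R) : bb X t t = 2 * ∑ m, X m * qq t m := by
  simp only [bb, qb_self, Finset.mul_sum]
  refine Finset.sum_congr rfl fun k _ => ?_
  ring

lemma bb_of_cc_eq {X : Fin 10 → R} {t t' : Fin 16 → R} (h : cc X t = cc X t') (s : Fin 16 → R) :
    bb X s t = bb X s t' := by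
  rw [bb_eq, bb_eq, h]

lemma bb_add_right (X : Fin 10 → R) (s t t' : Fin 16 → R) :
    bb X s (t + t') = bb X s t + bb X s t' := by
  rw [bb_eq, bb_eq, bb_eq, cc_add_right, ← Finset.sum_add_distrib]
  refine Finset.sum_congr rfl fun k _ => ?_
  rw [Pi.add_apply]
  ring

lemma bb_smul_right (X : Fin 10 → R) (s : Fin 16 → R) (c : R) (t : Fin 16 → R) :
    bb X s (c • t) = c * bb X s t := by
  rw [bb_eq, bb_eq, cc_smul_right, Finset.mul_sum]
  refine Finset.sum_congr rfl fun k _ => ?_
  rw [Pi.smul_apply, smul_eq_mul]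
  ring

/-- `bb X s` as a linear map -/
def bbL (X : Fin 10 → R) (s : Fin 16 → R) : (Fin 16 → R) →ₗ[R] R where
  toFun := bb X s
  map_add' := bb_add_right X s
  map_smul' := fun c t => bb_smul_right X s c t

lemma bb_sum_right {ι : Type*} [Fintype ι] (X : Fin 10 → R) (s : Fin 16 → R) (c : ι → R)
    (v : ι → Fin 16 → R) : bb X s (∑ i, c i • v i) = ∑ i, c i * bb X s (v i) := by
  have h := map_sum (bbL X s) (fun i => c i • v i) Finset.univ
  have h2 : ∀ t, bbL X s t = bb X s t := fun _ => rfl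
  simp only [h2, bb_smul_right] at h
  exact h

lemma bb_sum_left {ι : Type*} [Fintype ι] (X : Fin 10 → R) (s : Fin 16 → R) (c : ι → R)
    (v : ι → Fin 16 → R) : bb X (∑ i, c i • v i) s = ∑ i, c i * bb X (v i) s := by
  rw [bb_comm, bb_sum_right]
  exact Finset.sum_congr rfl fun i _ => by rw [bb_comm]

/-! ### the frame -/

lemma frame_aux1 : ∀ m k l m' k', ¬ (ia m' k' = ia m k ∧ ib m' k' = ia m l) := by decide

lemma frame_aux2 : ∀ m k l m' k', ¬ (ia m' k' = ib m k ∧ ib m' k' = ib m l) := by decide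

lemma frame_aux3 : ∀ m k l m' k', (ia m' k' = ia m k ∧ ib m' k' = ib m l) →
    m' = m ∧ k' = k ∧ l = k := by decide

lemma frame_aux4 : ∀ m k l m' k', ¬ (ia m' k' = ib m l ∧ ib m' k' = ia m k) := by decide

end Ring

/-- the coordinates of the frame attached to the `m`-th quadric -/
def fr (m : Fin 10) : Fin 4 ⊕ Fin 4 → Fin 16 := Sum.elim (ia m) (ib m)

lemma fr_inj (m : Fin 10) : Function.Injective (fr m) := by
  revert m
  decide

section Ring2

variable {R : Type*} [CommRing R]

/-- the frame -/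
def fv (m : Fin 10) (i : Fin 4 ⊕ Fin 4) : Fin 16 → R := Pi.single (fr m i) 1

lemma qb_single (a b : Fin 16) (m : Fin 10) :
    qb (Pi.single a 1 : Fin 16 → R) (Pi.single b 1) m =
      ∑ k, (sg m k : R) * ((if ia m k = a ∧ ib m k = b then 1 else 0) +
        (if ia m k = b ∧ ib m k = a then 1 else 0)) := by
  simp only [qb, Pi.single_apply]
  refine Finset.sum_congr rfl fun k _ => ?_
  congr 1
  congr 1
  · by_cases h1 : ia m k = a <;> by_cases h2 : ib m k = b <;> simp [h1, h2]
  · by_cases h1 : ia m k = b <;> by_cases h2 : ib m k = a <;> simp [h1, h2]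

lemma bb_fv_inl (X : Fin 10 → R) (m : Fin 10) (k l : Fin 4) :
    bb X (fv m (Sum.inl k)) (fv m (Sum.inl l)) = 0 := by
  rw [bb]
  refine Finset.sum_eq_zero fun m' _ => ?_
  simp only [fv, fr, Sum.elim_inl]
  rw [qb_single]
  rw [Finset.sum_eq_zero fun k' _ => ?_, mul_zero]
  rw [if_neg (frame_aux1 m k l m' k'), if_neg (frame_aux1 m l k m' k')]
  ring

lemma bb_fv_inr (X : Fin 10 → R) (m : Fin 10) (k l : Fin 4) :
    bb X (fv m (Sum.inr k)) (fv m (Sum.inr l)) = 0 := by
  rw [bb]
  refine Finset.sum_eq_zero fun m' _ => ?_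
  simp only [fv, fr, Sum.elim_inr]
  rw [qb_single]
  rw [Finset.sum_eq_zero fun k' _ => ?_, mul_zero]
  rw [if_neg (frame_aux2 m k l m' k'), if_neg (frame_aux2 m l k m' k')]
  ring

lemma bb_fv_inlr (X : Fin 10 → R) (m : Fin 10) (k l : Fin 4) :
    bb X (fv m (Sum.inl k)) (fv m (Sum.inr l)) = if k = l then X m * sg m k else 0 := by
  rw [bb]
  simp only [fv, fr, Sum.elim_inr, Sum.elim_inl, qb_single]
  have h1 : ∀ m' k', (if ia m' k' = ib m l ∧ ib m' k' = ia m k then (1 : R) else 0) = 0 :=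
    fun m' k' => if_neg (frame_aux4 m k l m' k')
  simp only [h1, add_zero]
  by_cases hkl : k = l
  · subst hkl
    rw [if_pos rfl, Finset.sum_eq_single m, Finset.sum_eq_single k]
    · rw [if_pos ⟨rfl, rfl⟩]; ring
    · intro k' _ hk'
      rw [if_neg fun h => hk' (frame_aux3 m k k m k' h).2.1, mul_zero]
    · intro h; exact absurd (Finset.mem_univ _) h
    · intro m' _ hm'
      rw [Finset.sum_eq_zero fun k' _ => ?_, mul_zero]
      rw [if_neg fun h => hm' (frame_aux3 m k k m' k' h).1, mul_zero]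
    · intro h; exact absurd (Finset.mem_univ _) h
  · rw [if_neg hkl]
    refine Finset.sum_eq_zero fun m' _ => ?_
    rw [Finset.sum_eq_zero fun k' _ => ?_, mul_zero]
    rw [if_neg fun h => hkl (frame_aux3 m k l m' k' h).2.2.symm, mul_zero]

/-- the Gram matrix of the frame -/
def gram (X : Fin 10 → R) (m : Fin 10) : Matrix (Fin 4 ⊕ Fin 4) (Fin 4 ⊕ Fin 4) R :=
  Matrix.of fun i j => bb X (fv m i) (fv m j)

lemma gram_symm (X : Fin 10 → R) (m : Fin 10) : (gram X m).transpose = gram X m := by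
  ext i j
  exact bb_comm _ _ _

lemma gram_eq (X : Fin 10 → R) (m : Fin 10) : gram X m =
    Matrix.fromBlocks (Matrix.diagonal fun k => X m * sg m k) 0 0
      (Matrix.diagonal fun k => X m * sg m k) * Matrix.fromBlocks 0 1 1 0 := by
  rw [Matrix.fromBlocks_multiply]
  simp only [Matrix.mul_zero, Matrix.mul_one, add_zero, zero_add]
  ext i j
  rcases i with k | k <;> rcases j with l | l
  · exact bb_fv_inl X m k l
  · rw [Matrix.fromBlocks_apply₁₂, Matrix.diagonal_apply]
    exact bb_fv_inlr X m k l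
  · rw [Matrix.fromBlocks_apply₂₁, Matrix.diagonal_apply]
    have h := bb_fv_inlr X m l k
    rw [bb_comm] at h
    refine h.trans ?_
    by_cases hkl : k = l
    · subst hkl; rfl
    · rw [if_neg hkl, if_neg (Ne.symm hkl)]
  · exact bb_fv_inr X m k l

lemma det_swap : (Matrix.fromBlocks 0 1 1 0 : Matrix (Fin 4 ⊕ Fin 4) (Fin 4 ⊕ Fin 4) R).det = 1 := by
  have h1 : (Matrix.fromBlocks 1 1 0 1 : Matrix (Fin 4 ⊕ Fin 4) (Fin 4 ⊕ Fin 4) R) *
      Matrix.fromBlocks 0 1 1 0 = Matrix.fromBlocks 1 1 1 0 := by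
    rw [Matrix.fromBlocks_multiply]
    simp
  have h2 := congrArg Matrix.det h1
  rw [Matrix.det_mul, Matrix.det_fromBlocks_zero₂₁, Matrix.det_one, one_mul, one_mul,
    Matrix.det_fromBlocks_one₁₁, Matrix.mul_one, zero_sub, Matrix.det_neg, Matrix.det_one] at h2
  rw [h2, mul_one]
  exact Even.neg_one_pow ⟨2, rfl⟩

lemma det_gram_frame (X : Fin 10 → R) (m : Fin 10) :
    (gram X m).det = (X m ^ 4 * ∏ k, (sg m k : R)) ^ 2 := by
  rw [gram_eq, Matrix.det_mul, det_swap, Matrix.det_fromBlocks_zero₂₁, Matrix.det_diagonal,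
    Finset.prod_mul_distrib]
  simp
  ring

lemma sg_prod (m : Fin 10) : (∏ k, (sg m k : ℤ)) = 1 ∨ (∏ k, (sg m k : ℤ)) = -1 := by
  revert m
  decide

lemma sg_prod_ne (m : Fin 10) [Nontrivial R] : (∏ k, (sg m k : R)) ^ 2 = 1 := by
  have h : (∏ k, (sg m k : R)) = ((∏ k, (sg m k : ℤ) : ℤ) : R) := by
    push_cast
    rfl
  rw [h]
  rcases sg_prod m with h1 | h1 <;> rw [h1] <;> simp

end Ring2

section Field

variable {K : Type*} [Field K]

lemma nb_single (X : Fin 10 → K) (m : Fin 10) : nb X (Pi.single (tau m) 1) = X m := by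
  rw [nb, Finset.sum_eq_single m]
  · simp
  · intro j _ hj
    rw [Pi.single_apply, if_neg, mul_zero]
    intro h
    apply hj
    rw [← tau_tau j, h, tau_tau]
  · intro h; exact absurd (Finset.mem_univ _) h

lemma single_tau (m : Fin 10) : (Pi.single (tau m) 1 : Fin 10 → K) ∘ tau = Pi.single m 1 := by
  funext j
  rw [Function.comp_apply, Pi.single_apply, Pi.single_apply]
  by_cases h : j = m
  · rw [if_pos h, if_pos (by rw [h])]
  · rw [if_neg h, if_neg]
    intro h'
    apply h
    rw [← tau_tau j, h', tau_tau]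

lemma cc_single (m : Fin 10) (s : Fin 16 → K) : ∃ c : Fin 4 ⊕ Fin 4 → K,
    cc (Pi.single m 1) s = ∑ i, c i • fv m i := by
  refine ⟨Sum.elim (fun k => (sg m k : K) * s (ib m k)) (fun k => (sg m k : K) * s (ia m k)), ?_⟩
  funext a
  rw [Fintype.sum_sum_type, Pi.add_apply, Finset.sum_apply, Finset.sum_apply,
    ← Finset.sum_add_distrib, cc, Finset.sum_eq_single m]
  · refine Finset.sum_congr rfl fun k _ => ?_
    simp only [Pi.single_eq_same, one_mul, Sum.elim_inl, Sum.elim_inr, Pi.smul_apply, smul_eq_mul,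
      fv, fr, Pi.single_apply, mul_ite, mul_one, mul_zero, mul_add]
  · intro j _ hj
    simp [Pi.single_eq_of_ne hj]
  · intro h; exact absurd (Finset.mem_univ _) h

/-- the frame spans a complement of the radical -/
lemma frame_span {X : Fin 10 → K} (hX : nn X = 0) {m : Fin 10} (hm : X m ≠ 0) (t : Fin 16 → K) :
    ∃ c : Fin 4 ⊕ Fin 4 → K, cc X (∑ i, c i • fv m i) = cc X t := by
  obtain ⟨c, hc⟩ := cc_single m (cc X t)
  refine ⟨fun i => (X m)⁻¹ * c i, ?_⟩
  have h1 : (∑ i, ((X m)⁻¹ * c i) • fv m i : Fin 16 → K) =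
      (X m)⁻¹ • cc (Pi.single m 1) (cc X t) := by
    rw [hc, Finset.smul_sum]
    exact Finset.sum_congr rfl fun i _ => mul_smul _ _ _
  have h2 := cc_polar X (Pi.single (tau m) 1) (cc X t)
  rw [cc_cc', hX, zero_smul, single_tau, nb_single] at h2
  have h3 : cc (Pi.single (tau m) 1 : Fin 10 → K) 0 = 0 := (ccL _).map_zero
  rw [h3, add_zero] at h2
  rw [h1, cc_smul_right, h2, smul_smul, inv_mul_cancel₀ hm, one_smul]

end Field

end Pool.Agent.Helper45.MK
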