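import Mathlib

/-!
The spinor tenfold in coordinates: sixteen coordinates `t 0 = u`,
`t 1, ..., t 10 = A01, A02, A03, A04, A12, A13, A14, A23, A24, A34`, `t 11, ..., t 15 = v0, ..., v4`
and the ten quadrics `u v_i - Pf_i(A)`, `(A v)_i`.
-/

namespace Pool.Agent.Helper45.MK

/-- first factor of the `k`-th term of the `m`-th quadric -/
def ia : Fin 10 → Fin 4 → Fin 16 :=
  ![![0, 5, 6, 7], ![0, 2, 3, 4], ![0, 1, 3, 4], ![0, 1, 2, 4], ![0, 1, 2, 3], ![1, 2, 3, 4],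
    ![1, 5, 6, 7], ![2, 5, 8, 9], ![3, 6, 8, 10], ![4, 7, 9, 10]]

/-- second factor of the `k`-th term of the `m`-th quadric -/
def ib : Fin 10 → Fin 4 → Fin 16 :=
  ![![11, 10, 9, 8], ![12, 10, 9, 8], ![13, 10, 7, 6], ![14, 9, 7, 5], ![15, 8, 6, 5],
    ![12, 13, 14, 15], ![11, 13, 14, 15], ![11, 12, 14, 15], ![11, 12, 13, 15], ![11, 12, 13, 14]]

/-- coefficient of the `k`-th term of the `m`-th quadric -/
def sg : Fin 10 → Fin 4 → ℤ :=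
  ![![1, -1, 1, -1], ![1, 1, -1, 1], ![1, -1, 1, -1], ![1, 1, -1, 1], ![1, -1, 1, -1],
    ![1, 1, 1, 1], ![-1, 1, 1, 1], ![-1, -1, 1, 1], ![-1, -1, -1, 1], ![-1, -1, -1, -1]]

/-- the involution of the ten coordinates of the quadratic space -/
def tau : Fin 10 → Fin 10 := ![5, 6, 7, 8, 9, 0, 1, 2, 3, 4]

lemma tau_tau (m : Fin 10) : tau (tau m) = m := by
  revert m; decide

variable {R : Type*} [CommRing R]

/-- the ten quadrics of the spinor tenfold -/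
def qq (t : Fin 16 → R) : Fin 10 → R := fun m =>
  ∑ k, (sg m k : R) * (t (ia m k) * t (ib m k))

/-- polar forms of the ten quadrics -/
def qb (s t : Fin 16 → R) : Fin 10 → R := fun m =>
  ∑ k, (sg m k : R) * (s (ia m k) * t (ib m k) + s (ib m k) * t (ia m k))

/-- the quadratic form on the ten-dimensional space -/
def nn (X : Fin 10 → R) : R := X 0 * X 5 + X 1 * X 6 + X 2 * X 7 + X 3 * X 8 + X 4 * X 9

/-- its polar form -/
def nb (X Y : Fin 10 → R) : R := ∑ m, X m * Y (tau m)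

/-- Clifford multiplication -/
def cc (X : Fin 10 → R) (t : Fin 16 → R) : Fin 16 → R := fun a =>
  ∑ m, ∑ k, X m * (sg m k : R) *
    ((if a = ia m k then t (ib m k) else 0) + (if a = ib m k then t (ia m k) else 0))

/-- the symmetric bilinear form of a vector `X` -/
def bb (X : Fin 10 → R) (s t : Fin 16 → R) : R := ∑ m, X m * qb s t m

/-! ### explicit formulas -/

lemma qq_explicit (t : Fin 16 → R) : qq t =
    ![t 0 * t 11 - t 5 * t 10 + t 6 * t 9 - t 7 * t 8,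
    t 0 * t 12 + t 2 * t 10 - t 3 * t 9 + t 4 * t 8,
    t 0 * t 13 - t 1 * t 10 + t 3 * t 7 - t 4 * t 6,
    t 0 * t 14 + t 1 * t 9 - t 2 * t 7 + t 4 * t 5,
    t 0 * t 15 - t 1 * t 8 + t 2 * t 6 - t 3 * t 5,
    t 1 * t 12 + t 2 * t 13 + t 3 * t 14 + t 4 * t 15,
    -(t 1 * t 11) + t 5 * t 13 + t 6 * t 14 + t 7 * t 15,
    -(t 2 * t 11) - t 5 * t 12 + t 8 * t 14 + t 9 * t 15,
    -(t 3 * t 11) - t 6 * t 12 - t 8 * t 13 + t 10 * t 15,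
    -(t 4 * t 11) - t 7 * t 12 - t 9 * t 13 - t 10 * t 14] := by
  funext m
  fin_cases m <;> simp [qq, Fin.sum_univ_succ, ia, ib, sg] <;> ring

lemma cc_explicit (X : Fin 10 → R) (t : Fin 16 → R) : cc X t =
  ![X 0 * t 11 + X 1 * t 12 + X 2 * t 13 + X 3 * t 14 + X 4 * t 15,
    -(X 2 * t 10) + X 3 * t 9 - X 4 * t 8 + X 5 * t 12 - X 6 * t 11,
    X 1 * t 10 - X 3 * t 7 + X 4 * t 6 + X 5 * t 13 - X 7 * t 11,
    -(X 1 * t 9) + X 2 * t 7 - X 4 * t 5 + X 5 * t 14 - X 8 * t 11,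
    X 1 * t 8 - X 2 * t 6 + X 3 * t 5 + X 5 * t 15 - X 9 * t 11,
    -(X 0 * t 10) + X 3 * t 4 - X 4 * t 3 + X 6 * t 13 - X 7 * t 12,
    X 0 * t 9 - X 2 * t 4 + X 4 * t 2 + X 6 * t 14 - X 8 * t 12,
    -(X 0 * t 8) + X 2 * t 3 - X 3 * t 2 + X 6 * t 15 - X 9 * t 12,
    -(X 0 * t 7) + X 1 * t 4 - X 4 * t 1 + X 7 * t 14 - X 8 * t 13,
    X 0 * t 6 - X 1 * t 3 + X 3 * t 1 + X 7 * t 15 - X 9 * t 13,
    -(X 0 * t 5) + X 1 * t 2 - X 2 * t 1 + X 8 * t 15 - X 9 * t 14,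
    X 0 * t 0 - X 6 * t 1 - X 7 * t 2 - X 8 * t 3 - X 9 * t 4,
    X 1 * t 0 + X 5 * t 1 - X 7 * t 5 - X 8 * t 6 - X 9 * t 7,
    X 2 * t 0 + X 5 * t 2 + X 6 * t 5 - X 8 * t 8 - X 9 * t 9,
    X 3 * t 0 + X 5 * t 3 + X 6 * t 6 + X 7 * t 8 - X 9 * t 10,
    X 4 * t 0 + X 5 * t 4 + X 6 * t 7 + X 7 * t 9 + X 8 * t 10] := by
  funext a
  fin_cases a <;> simp [cc, Fin.sum_univ_succ, ia, ib, sg] <;> ring

end Pool.Agent.Helper45.MK
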