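import Pool.Agent.Helper45.MK.Spin

/-! Identities for the Clifford multiplication and the ten quadrics. -/

namespace Pool.Agent.Helper45.MK

variable {R : Type*} [CommRing R]

lemma qb_explicit (s t : Fin 16 → R) : qb s t =
    ![s 0 * t 11 + s 11 * t 0 - (s 5 * t 10 + s 10 * t 5) + (s 6 * t 9 + s 9 * t 6)
      - (s 7 * t 8 + s 8 * t 7),
    s 0 * t 12 + s 12 * t 0 + (s 2 * t 10 + s 10 * t 2) - (s 3 * t 9 + s 9 * t 3)
      + (s 4 * t 8 + s 8 * t 4),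
    s 0 * t 13 + s 13 * t 0 - (s 1 * t 10 + s 10 * t 1) + (s 3 * t 7 + s 7 * t 3)
      - (s 4 * t 6 + s 6 * t 4),
    s 0 * t 14 + s 14 * t 0 + (s 1 * t 9 + s 9 * t 1) - (s 2 * t 7 + s 7 * t 2)
      + (s 4 * t 5 + s 5 * t 4),
    s 0 * t 15 + s 15 * t 0 - (s 1 * t 8 + s 8 * t 1) + (s 2 * t 6 + s 6 * t 2)
      - (s 3 * t 5 + s 5 * t 3),
    s 1 * t 12 + s 12 * t 1 + (s 2 * t 13 + s 13 * t 2) + (s 3 * t 14 + s 14 * t 3)
      + (s 4 * t 15 + s 15 * t 4),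
    -(s 1 * t 11 + s 11 * t 1) + (s 5 * t 13 + s 13 * t 5) + (s 6 * t 14 + s 14 * t 6)
      + (s 7 * t 15 + s 15 * t 7),
    -(s 2 * t 11 + s 11 * t 2) - (s 5 * t 12 + s 12 * t 5) + (s 8 * t 14 + s 14 * t 8)
      + (s 9 * t 15 + s 15 * t 9),
    -(s 3 * t 11 + s 11 * t 3) - (s 6 * t 12 + s 12 * t 6) - (s 8 * t 13 + s 13 * t 8)
      + (s 10 * t 15 + s 15 * t 10),
    -(s 4 * t 11 + s 11 * t 4) - (s 7 * t 12 + s 12 * t 7) - (s 9 * t 13 + s 13 * t 9)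
      - (s 10 * t 14 + s 14 * t 10)] := by
  funext m
  fin_cases m <;> simp [qb, Fin.sum_univ_succ, ia, ib, sg] <;> ring

lemma tau_explicit (X : Fin 10 → R) :
    X ∘ tau = ![X 5, X 6, X 7, X 8, X 9, X 0, X 1, X 2, X 3, X 4] := by
  funext m
  fin_cases m <;> rfl

lemma cc_cc (X : Fin 10 → R) (t : Fin 16 → R) : cc X (cc (X ∘ tau) t) = nn X • t := by
  rw [tau_explicit]
  funext a
  rw [cc_explicit, cc_explicit, Pi.smul_apply, smul_eq_mul]
  fin_cases a <;> simp [nn] <;> ring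

lemma nn_qq (t : Fin 16 → R) : nn (qq t) = 0 := by
  rw [qq_explicit]
  simp [nn]
  ring

lemma cc_qq (t : Fin 16 → R) : cc (qq t ∘ tau) t = 0 := by
  rw [tau_explicit, qq_explicit]
  funext a
  rw [cc_explicit, Pi.zero_apply]
  fin_cases a <;> simp <;> ring

lemma cc_qb (s t : Fin 16 → R) : cc (qb s t ∘ tau) s = -cc (qq s ∘ tau) t := by
  rw [tau_explicit, tau_explicit, qq_explicit, qb_explicit]
  funext a
  rw [cc_explicit, Pi.neg_apply, cc_explicit]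
  fin_cases a <;> simp <;> ring

lemma nn_qb (s t : Fin 16 → R) : nn (qb s t) = -nb (qq s) (qq t) := by
  rw [qb_explicit, nb, qq_explicit, qq_explicit]
  simp [nn, Fin.sum_univ_succ, tau]
  ring

lemma qq_cc (X : Fin 10 → R) (t : Fin 16 → R) (m : Fin 10) :
    qq (cc X t) m = (∑ j, X j * qq t j) * X m - nn X * qq t (tau m) := by
  rw [qq_explicit, cc_explicit, qq_explicit]
  fin_cases m <;> simp [nn, Fin.sum_univ_succ, tau] <;> ring

end Pool.Agent.Helper45.MK
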