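import Pool.Agent.Helper45.MK.Core
import Pool.Agent.Helper45.MK.Adj

/-! Every section of the spinor tenfold by at most seven hyperplanes has a rational point over a
`C1` field of characteristic not two. -/

open Matrix MvPolynomial

namespace Pool.Agent.Helper45.MK

open Pool.Agent.Helper45.SC1 (IsC1 strongC1 comp_wh eval_aeval)

variable {K : Type*} [Field K]

lemma det_homog {σ : Type*} {n e : ℕ} (M : Matrix (Fin n) (Fin n) (MvPolynomial σ K))
    (hM : ∀ i j, (M i j).IsHomogeneous e) : M.det.IsHomogeneous (n * e) := by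
  rw [Matrix.det_apply]
  apply IsHomogeneous.sum
  intro τ _
  have h1 : (∏ i, M (τ i) i).IsHomogeneous (∑ _i : Fin n, e) :=
    IsHomogeneous.prod _ _ _ fun i _ => hM _ _
  simp only [Finset.sum_const, Finset.card_univ, Fintype.card_fin, smul_eq_mul] at h1
  rcases Int.units_eq_one_or (Equiv.Perm.sign τ) with h | h
  · rw [h, one_smul]; exact h1
  · rw [h, Units.neg_smul, one_smul]; exact h1.neg

lemma eval_zero_homog {J : Type*} {P : MvPolynomial J K} {e : ℕ} (hP : P.IsHomogeneous e)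
    (he : e ≠ 0) : eval (fun _ : J => (0 : K)) P = 0 := by
  have h1 : eval (fun _ : J => (0 : K)) P = constantCoeff P :=
    congrFun (congrArg DFunLike.coe (eval_zero (σ := J) (R := K))) P
  rw [h1, constantCoeff_eq]
  by_contra hne
  have := hP hne
  rw [map_zero] at this
  exact he this.symm

/-- minus a form of even degree `2e` in more than `e` variables represents a square -/
lemma sq_zero (hC : IsC1 K) {J : Type*} [Fintype J] (P : MvPolynomial J K) (e : ℕ)
    (hP : P.IsHomogeneous (2 * e)) (he : 1 ≤ e) (hcard : e < Fintype.card J) :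
    ∃ (x : J → K) (z : K), x ≠ 0 ∧ -eval x P = z ^ 2 := by
  let w : J ⊕ Unit → ℕ := Sum.elim (fun _ => 1) (fun _ => e)
  let G : MvPolynomial (J ⊕ Unit) K := aeval (fun j => X (Sum.inl j)) P + X (Sum.inr ()) ^ 2
  have hG : IsWeightedHomogeneous w G (2 * e) := by
    refine IsWeightedHomogeneous.add ?_ ?_
    · exact comp_wh (D := fun _ => 1) (fun j => isWeightedHomogeneous_X K w (Sum.inl j)) hP
    · have := (isWeightedHomogeneous_X K w (Sum.inr ())).pow 2
      simpa [w] using this
  obtain ⟨y, hy0, hy⟩ := strongC1 hC w (by rintro (j | j) <;> simp [w, he]) (fun _ : Unit => 2 * e)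
    (fun _ => by omega) (fun _ => G) (fun _ => hG) (by
      simp only [Finset.univ_unique, Finset.sum_const, Finset.card_singleton, smul_eq_mul, one_mul,
        Fintype.sum_sum_type, w, Sum.elim_inl, Sum.elim_inr, Finset.card_univ, mul_one]
      omega)
  have h1 := hy ()
  simp only [G, map_add, eval_aeval, eval_X, map_pow] at h1
  refine ⟨fun j => y (Sum.inl j), y (Sum.inr ()), ?_, by linear_combination -h1⟩
  intro h0
  apply hy0
  have h2 : eval (fun j => y (Sum.inl j)) P = 0 := by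
    rw [h0]
    exact eval_zero_homog hP (by omega)
  rw [h2, zero_add] at h1
  funext j
  rcases j with j | j
  · exact congrFun h0 j
  · exact pow_eq_zero_iff (two_ne_zero) |>.1 h1

section maps

variable {R S : Type*} [CommRing R] [CommRing S] (f : R →+* S)

lemma map_qq (t : Fin 16 → R) (m : Fin 10) : f (qq t m) = qq (f ∘ t) m := by
  simp only [qq, map_sum, map_mul, map_intCast, Function.comp_apply]

lemma map_qb (s t : Fin 16 → R) (m : Fin 10) : f (qb s t m) = qb (f ∘ s) (f ∘ t) m := by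
  simp only [qb, map_sum, map_mul, map_add, map_intCast, Function.comp_apply]

lemma map_bb (X : Fin 10 → R) (s t : Fin 16 → R) :
    f (bb X s t) = bb (f ∘ X) (f ∘ s) (f ∘ t) := by
  simp only [bb, map_sum, map_mul, map_qb]
  rfl

end maps

/-- assembly: a null vector with the right properties gives a pure spinor -/
lemma assemble (hC : IsC1 K) (h2 : (2 : K) ≠ 0) {Y : Fin 10 → K} (hY0 : Y ≠ 0) (hY : nn Y = 0)
    (l : Fin 7 → Fin 16 → K) (x : Fin 7 → K) (i₀ : Fin 7) (hx : x i₀ ≠ 0)
    (hrad : cc Y (∑ k, x k • l k) = 0) (d : K)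
    (hd : -(Matrix.of fun i j => bb Y (l (i₀.succAbove i)) (l (i₀.succAbove j))).det = d ^ 2) :
    ∃ s : Fin 16 → K, s ≠ 0 ∧ qq s = 0 ∧ ∀ i, l i ⬝ᵥ s = 0 := by
  obtain ⟨s, hs0, hs1, hs2, hs3⟩ := spin8 hC h2 hY0 hY (fun i => l (i₀.succAbove i)) d hd
  refine ⟨s, hs0, hs1, fun i => ?_⟩
  by_cases hi : i = i₀
  · subst hi
    have h1 := hs3 _ hrad
    rw [sum_dotProduct, Fin.sum_univ_succAbove _ i] at h1
    simp only [smul_dotProduct, smul_eq_mul, hs2, mul_zero, Finset.sum_const_zero, add_zero] at h1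
    exact (mul_eq_zero.1 h1).resolve_left hx
  · obtain ⟨j, rfl⟩ := Fin.exists_succAbove_eq hi
    exact hs2 j

/-! ### no pure vector in the span -/

section caseB

variable (l : Fin 7 → Fin 16 → K)

/-- the generic vector -/
noncomputable def lp : Fin 16 → MvPolynomial (Fin 7) K :=
  ∑ k, (X k : MvPolynomial (Fin 7) K) • (fun a => C (l k a))

lemma lp_apply (a : Fin 16) : lp l a = ∑ k, X k * C (l k a) := by
  simp [lp, Finset.sum_apply]

lemma lp_homog (a : Fin 16) : (lp l a).IsHomogeneous 1 := by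
  rw [lp_apply]
  apply IsHomogeneous.sum
  intro k _
  have := (isHomogeneous_X K k).mul (isHomogeneous_C (Fin 7) (l k a))
  simpa using this

lemma eval_lp (x : Fin 7 → K) : (eval x : MvPolynomial (Fin 7) K → K) ∘ lp l = ∑ k, x k • l k := by
  funext a
  rw [Function.comp_apply, lp_apply]
  simp [Finset.sum_apply]

/-- the generic Gram matrix -/
noncomputable def Gp : Matrix (Fin 7) (Fin 7) (MvPolynomial (Fin 7) K) :=
  Matrix.of fun i j => bb (qq (lp l) ∘ tau) (fun a => C (l i a)) (fun a => C (l j a))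

lemma Gp_symm : (Gp l)ᵀ = Gp l := by
  ext1 i j
  exact bb_comm _ _ _

lemma Gp_ker : Gp l *ᵥ (fun i => X i) = 0 := by
  funext i
  simp only [Gp, mulVec, dotProduct, Matrix.of_apply, Pi.zero_apply]
  have h1 : bb (qq (lp l) ∘ tau) (fun a => C (l i a)) (lp l) = 0 := by
    rw [bb_eq, cc_qq]
    simp
  rw [← h1]
  conv_rhs => rw [lp]
  rw [bb_sum_right]
  refine Finset.sum_congr rfl fun j _ => ?_
  rw [mul_comm]
  rfl

lemma qb_C (s t : Fin 16 → K) (m : Fin 10) {σ : Type*} :
    qb (fun a => (C (s a) : MvPolynomial σ K)) (fun a => C (t a)) m = C (qb s t m) :=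
  (map_qb (C : K →+* MvPolynomial σ K) s t m).symm

lemma bb_homog {σ : Type*} {Y : Fin 10 → MvPolynomial σ K} {e : ℕ}
    (hY : ∀ m, (Y m).IsHomogeneous e) (s t : Fin 16 → K) :
    (bb Y (fun a => C (s a)) (fun a => C (t a))).IsHomogeneous e := by
  rw [bb]
  apply IsHomogeneous.sum
  intro m _
  rw [qb_C]
  have := (hY m).mul (isHomogeneous_C σ (qb s t m))
  simpa using this

lemma intCast_homog {σ : Type*} (n : ℤ) : ((n : MvPolynomial σ K)).IsHomogeneous 0 := by
  have : ((n : MvPolynomial σ K)) = C (n : K) := by simp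
  rw [this]
  exact isHomogeneous_C σ _

lemma Gp_homog (i j : Fin 7) : (Gp l i j).IsHomogeneous 2 := by
  refine bb_homog (fun m => ?_) _ _
  rw [Function.comp_apply, qq]
  apply IsHomogeneous.sum
  intro k _
  have := (intCast_homog (K := K) (σ := Fin 7) (sg (tau m) k)).mul
    ((lp_homog l (ia (tau m) k)).mul (lp_homog l (ib (tau m) k)))
  simpa using this

lemma caseB (hC : IsC1 K) (h2 : (2 : K) ≠ 0)
    (hpure : ∀ x : Fin 7 → K, x ≠ 0 → qq (∑ k, x k • l k) ≠ 0) :
    ∃ s : Fin 16 → K, s ≠ 0 ∧ qq s = 0 ∧ ∀ i, l i ⬝ᵥ s = 0 := by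
  obtain ⟨δ, hδ⟩ := exists_delta (by norm_num) (Gp l) (Gp_symm l) (Gp_ker l)
  have hδh : δ.IsHomogeneous (2 * 5) := by
    apply homog_of_mul_X (i := 0)
    rw [← hδ, adjugate_fin_succ_eq_det_submatrix]
    have h1 := det_homog ((Gp l).submatrix (Fin.succAbove 0) (Fin.succAbove 0))
      (fun i j => Gp_homog l _ _)
    simpa using h1
  obtain ⟨x, z, hx0, hz⟩ := sq_zero hC δ 5 hδh (by norm_num) (by simp)
  obtain ⟨i₀, hi₀⟩ := Function.ne_iff.1 hx0
  have hi₀ : x i₀ ≠ 0 := hi₀
  set p : Fin 16 → K := ∑ k, x k • l k with hp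
  have hYX : (eval x : MvPolynomial (Fin 7) K → K) ∘ (qq (lp l) ∘ tau) = qq p ∘ tau := by
    funext m
    rw [Function.comp_apply, Function.comp_apply, map_qq]
    congr 1
    exact eval_lp l x
  refine assemble hC h2 (Y := qq p ∘ tau) ?_ ?_ l x i₀ hi₀ (cc_qq p) (z * x i₀) ?_
  · intro h0
    apply hpure x hx0
    funext m
    have := congrFun h0 (tau m)
    rw [Function.comp_apply, tau_tau] at this
    exact this
  · rw [nn_tau, nn_qq]
  · have h1 := congrArg (eval x) (hδ i₀ i₀)
    have h3 : eval x (adjugate (Gp l) i₀ i₀) =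
        adjugate ((eval x).mapMatrix (Gp l)) i₀ i₀ := by
      rw [← RingHom.map_adjugate]
      rfl
    rw [h3, adjugate_fin_succ_eq_det_submatrix, Even.neg_one_pow ⟨_, rfl⟩, one_mul] at h1
    have h4 : ((eval x).mapMatrix (Gp l)).submatrix i₀.succAbove i₀.succAbove =
        Matrix.of fun i j => bb (qq p ∘ tau) (l (i₀.succAbove i)) (l (i₀.succAbove j)) := by
      ext i j
      rw [Matrix.submatrix_apply, RingHom.mapMatrix_apply, Matrix.map_apply, Gp, Matrix.of_apply,
        Matrix.of_apply, map_bb]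
      rw [show (⇑(eval x) ∘ (qq (lp l) ∘ tau)) = qq p ∘ tau from hYX]
      congr 1
      · funext a; simp
      · funext a; simp
    rw [h4] at h1
    rw [h1]
    simp only [map_mul, eval_X]
    linear_combination (x i₀ ^ 2) * hz

end caseB

/-! ### a pure vector in the span -/

/-- the five quadrics containing a given coordinate -/
def pm : Fin 16 → Fin 5 → Fin 10 :=
  ![![0, 1, 2, 3, 4], ![2, 3, 4, 5, 6], ![1, 3, 4, 5, 7], ![1, 2, 4, 5, 8], ![1, 2, 3, 5, 9],
    ![0, 3, 4, 6, 7], ![0, 2, 4, 6, 8], ![0, 2, 3, 6, 9], ![0, 1, 4, 7, 8], ![0, 1, 3, 7, 9],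
    ![0, 1, 2, 8, 9], ![0, 6, 7, 8, 9], ![1, 5, 7, 8, 9], ![2, 5, 6, 8, 9], ![3, 5, 6, 7, 9],
    ![4, 5, 6, 7, 8]]

/-- the partners of the coordinate in these quadrics -/
def pk : Fin 16 → Fin 5 → Fin 16 :=
  ![![11, 12, 13, 14, 15], ![10, 9, 8, 12, 11], ![10, 7, 6, 13, 11], ![9, 7, 5, 14, 11],
    ![8, 6, 5, 15, 11], ![10, 4, 3, 13, 12], ![9, 4, 2, 14, 12], ![8, 3, 2, 15, 12],
    ![7, 4, 1, 14, 13], ![6, 3, 1, 15, 13], ![5, 2, 1, 15, 14], ![0, 1, 2, 3, 4],
    ![0, 1, 5, 6, 7], ![0, 2, 5, 8, 9], ![0, 3, 6, 8, 10], ![0, 4, 7, 9, 10]]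

lemma pure_aux1 : ∀ k a j b, ib (pm k a) j = pk k b → b = a ∧ ia (pm k a) j = k := by decide

lemma pure_aux2 : ∀ k a j b, ia (pm k a) j = pk k b → b = a ∧ ib (pm k a) j = k := by decide

lemma pure_aux3 : ∀ k a, (∑ j, sg (pm k a) j * ((if ib (pm k a) j = pk k a then 1 else 0) +
    (if ia (pm k a) j = pk k a then 1 else 0))) = 1 ∨
    (∑ j, sg (pm k a) j * ((if ib (pm k a) j = pk k a then 1 else 0) +
    (if ia (pm k a) j = pk k a then 1 else 0))) = -1 := by decide

section caseA

/-- the vector supported on the partners -/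
def wv {R : Type*} [CommRing R] (k : Fin 16) (y : Fin 5 → R) : Fin 16 → R :=
  fun c => ∑ b, if c = pk k b then y b else 0

lemma qb_wv {R : Type*} [CommRing R] (p : Fin 16 → R) (k : Fin 16) (y : Fin 5 → R) (a : Fin 5) :
    qb p (wv k y) (pm k a) = p k * y a ∨ qb p (wv k y) (pm k a) = -(p k * y a) := by
  have h1 : ∀ j, p (ia (pm k a) j) * wv k y (ib (pm k a) j) =
      (if ib (pm k a) j = pk k a then 1 else 0) * (p k * y a) := by
    intro j
    by_cases h : ib (pm k a) j = pk k a
    · rw [if_pos h, one_mul, (pure_aux1 k a j a h).2, wv, Finset.sum_eq_single a]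
      · rw [if_pos h]
      · intro b _ hb
        rw [if_neg fun h' => hb (pure_aux1 k a j b h').1]
      · intro h'; exact absurd (Finset.mem_univ _) h'
    · rw [if_neg h, zero_mul, wv, Finset.sum_eq_zero, mul_zero]
      intro b _
      rw [if_neg]
      intro h'
      have := (pure_aux1 k a j b h').1
      rw [this] at h'
      exact h h'
  have h2 : ∀ j, p (ib (pm k a) j) * wv k y (ia (pm k a) j) =
      (if ia (pm k a) j = pk k a then 1 else 0) * (p k * y a) := by
    intro j
    by_cases h : ia (pm k a) j = pk k a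
    · rw [if_pos h, one_mul, (pure_aux2 k a j a h).2, wv, Finset.sum_eq_single a]
      · rw [if_pos h]
      · intro b _ hb
        rw [if_neg fun h' => hb (pure_aux2 k a j b h').1]
      · intro h'; exact absurd (Finset.mem_univ _) h'
    · rw [if_neg h, zero_mul, wv, Finset.sum_eq_zero, mul_zero]
      intro b _
      rw [if_neg]
      intro h'
      have := (pure_aux2 k a j b h').1
      rw [this] at h'
      exact h h'
  have h3 : qb p (wv k y) (pm k a) = ((∑ j, sg (pm k a) j *
      ((if ib (pm k a) j = pk k a then 1 else 0) +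
      (if ia (pm k a) j = pk k a then 1 else 0)) : ℤ) : R) * (p k * y a) := by
    rw [qb, Int.cast_sum, Finset.sum_mul]
    refine Finset.sum_congr rfl fun j _ => ?_
    rw [h1, h2]
    push_cast
    ring
  rw [h3]
  rcases pure_aux3 k a with h | h
  · left; rw [h]; simp
  · right; rw [h]; simp

lemma qb_wv_ne (p : Fin 16 → K) (k : Fin 16) (hk : p k ≠ 0) (y : Fin 5 → K) (hy : y ≠ 0) :
    qb p (wv k y) ≠ 0 := by
  obtain ⟨a, ha⟩ := Function.ne_iff.1 hy
  have ha : y a ≠ 0 := ha
  intro h0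
  have h1 := congrFun h0 (pm k a)
  rw [Pi.zero_apply] at h1
  rcases qb_wv p k y a with h | h
  · rw [h] at h1
    exact mul_ne_zero hk ha h1
  · rw [h, neg_eq_zero] at h1
    exact mul_ne_zero hk ha h1

lemma map_wv {R S : Type*} [CommRing R] [CommRing S] (f : R →+* S) (k : Fin 16) (y : Fin 5 → R) :
    f ∘ wv k y = wv k (f ∘ y) := by
  funext c
  simp only [Function.comp_apply, wv, map_sum]
  refine Finset.sum_congr rfl fun b _ => ?_
  split_ifs
  · rfl
  · exact map_zero f

lemma wv_homog (k c : Fin 16) : (wv k (fun b => (X b : MvPolynomial (Fin 5) K)) c).IsHomogeneous 1 := by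
  rw [wv]
  apply IsHomogeneous.sum
  intro b _
  split_ifs
  · exact isHomogeneous_X K b
  · exact isHomogeneous_zero _ _ _

lemma caseA (hC : IsC1 K) (h2 : (2 : K) ≠ 0) (l : Fin 7 → Fin 16 → K) (x : Fin 7 → K)
    (hx0 : ∑ k, x k • l k ≠ 0) (hx : qq (∑ k, x k • l k) = 0) :
    ∃ s : Fin 16 → K, s ≠ 0 ∧ qq s = 0 ∧ ∀ i, l i ⬝ᵥ s = 0 := by
  obtain ⟨i₀, hi₀⟩ : ∃ i₀, x i₀ ≠ 0 := by
    by_contra hcon
    push Not at hcon
    apply hx0
    refine Finset.sum_eq_zero fun k _ => ?_
    rw [hcon, zero_smul]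
  set p : Fin 16 → K := ∑ k, x k • l k with hp
  obtain ⟨k₀, hk₀⟩ := Function.ne_iff.1 hx0
  have hk₀ : p k₀ ≠ 0 := hk₀
  let Y : Fin 10 → MvPolynomial (Fin 5) K := qb (fun a => C (p a)) (wv k₀ fun b => X b) ∘ tau
  have hYh : ∀ m, (Y m).IsHomogeneous 1 := by
    intro m
    simp only [Y, Function.comp_apply, qb]
    apply IsHomogeneous.sum
    intro j _
    have h1 := ((isHomogeneous_C (Fin 5) (p (ia (tau m) j))).mul (wv_homog k₀ (ib (tau m) j)))
    have h3 := ((isHomogeneous_C (Fin 5) (p (ib (tau m) j))).mul (wv_homog k₀ (ia (tau m) j)))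
    have := (intCast_homog (K := K) (σ := Fin 5) (sg (tau m) j)).mul (h1.add h3)
    simpa using this
  let G : Matrix (Fin 6) (Fin 6) (MvPolynomial (Fin 5) K) := Matrix.of fun i j =>
    bb Y (fun a => C (l (i₀.succAbove i) a)) (fun a => C (l (i₀.succAbove j) a))
  have hG : G.det.IsHomogeneous (2 * 3) := det_homog G fun i j => bb_homog hYh _ _
  obtain ⟨y, z, hy0, hz⟩ := sq_zero hC G.det 3 hG (by norm_num) (by simp)
  have hYe : (eval y : MvPolynomial (Fin 5) K → K) ∘ Y = qb p (wv k₀ y) ∘ tau := by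
    funext m
    rw [Function.comp_apply, Function.comp_apply]
    change eval y (qb (fun a => C (p a)) (wv k₀ fun b => X b) (tau m)) = _
    rw [map_qb, map_wv]
    congr 1
    · funext a; simp
    · congr 1
      funext b; simp
  refine assemble hC h2 (Y := qb p (wv k₀ y) ∘ tau) ?_ ?_ l x i₀ hi₀ ?_ z ?_
  · intro h0
    apply qb_wv_ne p k₀ hk₀ y hy0
    funext m
    have := congrFun h0 (tau m)
    rw [Function.comp_apply, tau_tau] at this
    exact this
  · rw [nn_tau, nn_qb, hx]
    simp [nb]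
  · rw [← hp]
    have h1 := cc_qb p (wv k₀ y)
    rw [hx] at h1
    rw [h1]
    funext a
    simp [cc]
  · rw [← hz, RingHom.map_det]
    congr 2
    ext i j
    rw [RingHom.mapMatrix_apply, Matrix.map_apply, Matrix.of_apply]
    change _ = eval y (bb Y (fun a => C (l (i₀.succAbove i) a)) (fun a => C (l (i₀.succAbove j) a)))
    rw [map_bb]
    rw [show (⇑(eval y) ∘ Y) = qb p (wv k₀ y) ∘ tau from hYe]
    congr 1
    · funext a; simp
    · funext a; simp

end caseA

/-- **sections of the spinor tenfold by seven hyperplanes** -/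
theorem spinor7 (hC : IsC1 K) (h2 : (2 : K) ≠ 0) (l : Fin 7 → Fin 16 → K) :
    ∃ s : Fin 16 → K, s ≠ 0 ∧ qq s = 0 ∧ ∀ i, l i ⬝ᵥ s = 0 := by
  classical
  by_cases hA : ∃ x : Fin 7 → K, x ≠ 0 ∧ qq (∑ k, x k • l k) = 0
  · obtain ⟨x, hx0, hx⟩ := hA
    by_cases hl : ∑ k, x k • l k = 0
    · obtain ⟨i₀, hi₀⟩ := Function.ne_iff.1 hx0
      have hi₀ : x i₀ ≠ 0 := hi₀
      have hsum : ∑ k, (Pi.single i₀ (1 : K) : Fin 7 → K) k •
          Function.update l i₀ (Pi.single 0 1) k = Pi.single 0 1 := by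
        rw [Finset.sum_eq_single i₀]
        · simp
        · intro b _ hb
          rw [Pi.single_eq_of_ne hb, zero_smul]
        · intro h'; exact absurd (Finset.mem_univ _) h'
      obtain ⟨s, hs0, hs1, hs2⟩ := caseA hC h2 (Function.update l i₀ (Pi.single 0 1))
        (Pi.single i₀ 1) (by
          rw [hsum]
          intro h
          have := congrFun h 0
          simp at this) (by
          rw [hsum, qq_explicit]
          funext m
          fin_cases m <;> simp)
      refine ⟨s, hs0, hs1, fun i => ?_⟩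
      have hne : ∀ k, k ≠ i₀ → l k ⬝ᵥ s = 0 := by
        intro k hk
        have := hs2 k
        rwa [Function.update_of_ne hk] at this
      by_cases hi : i = i₀
      · subst hi
        have h1 : (∑ k, x k • l k) ⬝ᵥ s = 0 := by rw [hl, zero_dotProduct]
        rw [sum_dotProduct, Finset.sum_eq_single i] at h1
        · rw [smul_dotProduct, smul_eq_mul] at h1
          exact (mul_eq_zero.1 h1).resolve_left hi₀
        · intro b _ hb
          rw [smul_dotProduct, hne b hb, smul_zero]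
        · intro h'; exact absurd (Finset.mem_univ _) h'
      · exact hne i hi
    · exact caseA hC h2 l x hl hx
  · push Not at hA
    exact caseB l hC h2 hA

end Pool.Agent.Helper45.MK
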